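import Pool.Agent.Helper24.BR.Inst

/-!
# Project BR: the statement for `SO_0(m, 1)` without definitions, and transport of the two
properties along isomorphisms
-/

open Matrix Real Filter Topology

namespace Pool.Agent.Helper24.BR

/-- The homogeneous coboundary. -/
def dF {G : Type} {n : ℕ} (h : (Fin n → G) → ℝ) (x : Fin (n + 1) → G) : ℝ :=
  ∑ i : Fin (n + 1), (-1 : ℝ) ^ (i : ℕ) * h (fun j => x (Fin.succAbove i j))

/-- Continuous and invariant. -/
def CI {G : Type} [Group G] [TopologicalSpace G] {n : ℕ} (h : (Fin n → G) → ℝ) : Prop :=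
  Continuous h ∧ ∀ (g : G) (x : Fin n → G), h (fun j => g * x j) = h x

/-- Bounded. -/
def Bd {G : Type} {n : ℕ} (h : (Fin n → G) → ℝ) : Prop := ∃ C : ℝ, ∀ x, |h x| ≤ C

/-- The comparison map is injective in degree `n`. -/
def InjDeg (G : Type) [Group G] [TopologicalSpace G] (n : ℕ) : Prop :=
  ∀ (b : (Fin (n + 1) → G) → ℝ) (h : (Fin n → G) → ℝ), Bd b → CI h → (∀ x, b x = dF h x) →
    ∃ h' : (Fin n → G) → ℝ, CI h' ∧ Bd h' ∧ ∀ x, b x = dF h' x

/-- The comparison map is surjective in degree `n`. -/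
def SurDeg (G : Type) [Group G] [TopologicalSpace G] (n : ℕ) : Prop :=
  ∀ b : (Fin (n + 1) → G) → ℝ, CI b → (∀ x, dF b x = 0) →
    ∃ (b' : (Fin (n + 1) → G) → ℝ) (h : (Fin n → G) → ℝ), CI b' ∧ Bd b' ∧ CI h ∧
      ∀ x, b x = b' x + dF h x

section transport

variable {G H : Type} [Group G] [TopologicalSpace G] [Group H] [TopologicalSpace H]

/-- Pull back. -/
def pb {G H : Type} (e : H → G) {n : ℕ} (f : (Fin n → G) → ℝ) (x : Fin n → H) : ℝ :=
  f fun j => e (x j)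

omit [Group G] [TopologicalSpace G] [Group H] [TopologicalSpace H] in
theorem dF_pb (e : H → G) {n : ℕ} (f : (Fin n → G) → ℝ) (x : Fin (n + 1) → H) :
    dF (pb e f) x = pb e (dF f) x := rfl

theorem CI.pb (e : H ≃ₜ* G) {n : ℕ} {f : (Fin n → G) → ℝ} (hf : CI f) : CI (pb e f) := by
  refine ⟨?_, ?_⟩
  · exact hf.1.comp (continuous_pi fun j => e.continuous.comp (continuous_apply j))
  · intro g x
    have h1 := hf.2 (e g) (fun j => e (x j))
    unfold BR.pb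
    rw [← h1]
    simp only [map_mul]

omit [Group G] [TopologicalSpace G] [Group H] [TopologicalSpace H] in
theorem Bd.pb (e : H → G) {n : ℕ} {f : (Fin n → G) → ℝ} (hf : Bd f) : Bd (pb e f) := by
  obtain ⟨C, hC⟩ := hf
  exact ⟨C, fun x => hC _⟩

theorem pb_symm (e : H ≃ₜ* G) {n : ℕ} (f : (Fin n → H) → ℝ) : pb e (pb e.symm f) = f := by
  funext x
  unfold BR.pb
  simp

theorem InjDeg.congr (e : H ≃ₜ* G) {n : ℕ} (hG : InjDeg G n) : InjDeg H n := by
  intro b h hb hh hbh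
  obtain ⟨h', h1, h2, h3⟩ := hG (pb e.symm b) (pb e.symm h) (hb.pb e.symm) (hh.pb e.symm) (by
    intro x
    rw [dF_pb]
    exact hbh _)
  refine ⟨pb e h', h1.pb e, h2.pb e, ?_⟩
  intro x
  rw [dF_pb]
  have := h3 (fun j => e (x j))
  rw [← pb_symm e b]
  exact this

theorem SurDeg.congr (e : H ≃ₜ* G) {n : ℕ} (hG : SurDeg G n) : SurDeg H n := by
  intro b hb hbz
  obtain ⟨b', h, h1, h2, h3, h4⟩ := hG (pb e.symm b) (hb.pb e.symm) (by
    intro x
    rw [dF_pb]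
    exact hbz _)
  refine ⟨pb e b', pb e h, h1.pb e, h2.pb e, h3.pb e, ?_⟩
  intro x
  rw [dF_pb]
  have := h4 (fun j => e (x j))
  rw [← pb_symm e b]
  exact this

end transport

theorem pres_iff {m : ℕ} (M : Mat m) : Pres M ↔
    Mᵀ * diagonal (fun i : Fin (m + 1) => if i = 0 then (-1 : ℝ) else 1) * M =
      diagonal (fun i : Fin (m + 1) => if i = 0 then (-1 : ℝ) else 1) := by
  have hJ : (Jm : Mat m) = diagonal fun i : Fin (m + 1) => if i = 0 then (-1 : ℝ) else 1 := rfl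
  rw [← hJ]
  constructor
  · intro h
    apply Matrix.ext_of_mulVec_single
    intro j
    apply funext
    intro i
    have h2 := h (Pi.single i 1) (Pi.single j 1)
    rw [← dot_Jm, ← dot_Jm] at h2
    rw [← mulVec_mulVec, ← mulVec_mulVec]
    have h3 : ∀ v : Vec m, Pi.single i (1 : ℝ) ⬝ᵥ v = v i := fun v => by
      rw [single_dotProduct, one_mul]
    rw [h3] at h2
    rw [← h2, ← h3 (Mᵀ *ᵥ _), dotProduct_mulVec, vecMul_transpose]
  · intro h x y
    rw [← dot_Jm, ← dot_Jm]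
    have h1 : x ⬝ᵥ (Jm *ᵥ y) = x ⬝ᵥ ((Mᵀ * Jm * M) *ᵥ y) := by rw [h]
    rw [h1, ← mulVec_mulVec, ← mulVec_mulVec, dotProduct_mulVec x, vecMul_transpose]

/-- The final statement for the groups `SO_0(m, 1)`. -/
theorem fin_real (hinj : ∀ k n : ℕ, InjDeg (GG (k + 2)) n) (hsur : ∀ k n : ℕ, SurDeg (GG (k + 2)) n)
    (m : ℕ) (hm : 2 ≤ m) : ∃ G : Subgroup (Matrix.SpecialLinearGroup (Fin (m + 1)) ℝ),
    (∀ g : Matrix.SpecialLinearGroup (Fin (m + 1)) ℝ, g ∈ G ↔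
      ((g : Matrix (Fin (m + 1)) (Fin (m + 1)) ℝ)ᵀ *
          diagonal (fun i : Fin (m + 1) => if i = 0 then (-1 : ℝ) else 1) *
          (g : Matrix (Fin (m + 1)) (Fin (m + 1)) ℝ) =
        diagonal (fun i : Fin (m + 1) => if i = 0 then (-1 : ℝ) else 1) ∧
      0 < (g : Matrix (Fin (m + 1)) (Fin (m + 1)) ℝ) 0 0)) ∧
    ∀ n : ℕ,
      (∀ (b : (Fin (n + 2) → G) → ℝ) (h : (Fin (n + 1) → G) → ℝ),
        (∃ C : ℝ, ∀ x, |b x| ≤ C) → Continuous h →
        (∀ (g : G) (x : Fin (n + 1) → G), h (fun j => g * x j) = h x) →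
        (∀ x : Fin (n + 2) → G,
          b x = ∑ i : Fin (n + 2), (-1 : ℝ) ^ (i : ℕ) * h (fun j => x (Fin.succAbove i j))) →
        ∃ h' : (Fin (n + 1) → G) → ℝ, Continuous h' ∧
          (∀ (g : G) (x : Fin (n + 1) → G), h' (fun j => g * x j) = h' x) ∧
          (∃ C : ℝ, ∀ x, |h' x| ≤ C) ∧
          ∀ x : Fin (n + 2) → G,
            b x = ∑ i : Fin (n + 2), (-1 : ℝ) ^ (i : ℕ) * h' (fun j => x (Fin.succAbove i j))) ∧
      (∀ b : (Fin (n + 2) → G) → ℝ, Continuous b →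
        (∀ (g : G) (x : Fin (n + 2) → G), b (fun j => g * x j) = b x) →
        (∀ x : Fin (n + 3) → G,
          ∑ i : Fin (n + 3), (-1 : ℝ) ^ (i : ℕ) * b (fun j => x (Fin.succAbove i j)) = 0) →
        ∃ (b' : (Fin (n + 2) → G) → ℝ) (h : (Fin (n + 1) → G) → ℝ), Continuous b' ∧
          (∀ (g : G) (x : Fin (n + 2) → G), b' (fun j => g * x j) = b' x) ∧
          (∃ C : ℝ, ∀ x, |b' x| ≤ C) ∧ Continuous h ∧
          (∀ (g : G) (x : Fin (n + 1) → G), h (fun j => g * x j) = h x) ∧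
          ∀ x : Fin (n + 2) → G,
            b x = b' x +
              ∑ i : Fin (n + 2), (-1 : ℝ) ^ (i : ℕ) * h (fun j => x (Fin.succAbove i j))) := by
  obtain ⟨k, rfl⟩ : ∃ k, m = k + 2 := ⟨m - 2, by omega⟩
  refine ⟨GG (k + 2), ?_, ?_⟩
  · intro g
    show (Pres (g : Mat (k + 2)) ∧ 0 < (g : Mat (k + 2)) 0 0) ↔ _
    rw [pres_iff]
  · intro n
    refine ⟨?_, ?_⟩
    · intro b h hb hc hi hbh
      obtain ⟨h', h1, h2, h3⟩ := hinj k (n + 1) b h hb ⟨hc, hi⟩ hbh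
      exact ⟨h', h1.1, h1.2, h2, h3⟩
    · intro b hc hi hz
      obtain ⟨b', h, h1, h2, h3, h4⟩ := hsur k (n + 1) b ⟨hc, hi⟩ hz
      exact ⟨b', h, h1.1, h1.2, h2, h3.1, h3.2, h4⟩

end Pool.Agent.Helper24.BR
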