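import Pool.Agent.Helper24.BR.LorT

/-!
# Project BR: the rank one data of `SO_0(k + 2, 1)`, first part
-/

open Matrix Real Filter Topology

namespace Pool.Agent.Helper24.BR

variable {k : ℕ}

theorem e0_zero : (e0 : Vec (k + 2)) 0 = 1 := by
  unfold e0
  exact Pi.single_eq_same _ _

theorem e1_zero : (e1 : Vec (k + 2)) 0 = 0 := by
  unfold e1
  exact Pi.single_eq_of_ne (Ne.symm one_ne) _

theorem xinf_zero : (xinf : Vec (k + 2)) 0 = 1 := by
  unfold xinf
  rw [Pi.add_apply, e0_zero, e1_zero, add_zero]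

theorem xzero_zero : (xzero : Vec (k + 2)) 0 = 1 := by
  unfold xzero
  rw [Pi.sub_apply, e0_zero, e1_zero, sub_zero]

theorem nul_xinf : Nul (xinf : Vec (k + 2)) :=
  ⟨B_xinf_xinf, by rw [xinf_zero]; exact one_pos⟩

theorem nul_xzero : Nul (xzero : Vec (k + 2)) :=
  ⟨B_xzero_xzero, by rw [xzero_zero]; exact one_pos⟩

theorem e0_half : (e0 : Vec (k + 2)) = (1 / 2 : ℝ) • (xinf + xzero) := by
  unfold xinf xzero
  funext j
  simp
  ring

theorem B_xzero_xinf : B (xzero : Vec (k + 2)) xinf = -2 := by rw [B_comm, B_xinf_xzero]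

/-- The displacement. -/
noncomputable def rhoR (g : GG (k + 2)) : ℝ := dist (oo : X (k + 2)) (g • oo)

/-- The pairing. -/
noncomputable def gamR (g : GG (k + 2)) : ℝ := -B xinf (act g xinf) / 2

/-- The norm of the null vector. -/
noncomputable def nmR (g : GG (k + 2)) : ℝ := act g xinf 0

theorem nul_act (g : GG (k + 2)) : Nul (act g xinf) := nul_xinf.act g

theorem B_inv_act (g : GG (k + 2)) (x y : Vec (k + 2)) : B x (act g⁻¹ y) = B (act g x) y := by
  rw [B_comm, B_act_inv, B_comm]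

theorem rhoR_one : rhoR (1 : GG (k + 2)) = 0 := by
  unfold rhoR
  rw [one_smul, dist_self]

theorem rhoR_inv (g : GG (k + 2)) : rhoR g⁻¹ = rhoR g := by
  unfold rhoR
  rw [← dist_smul g, smul_inv_smul, dist_comm]

theorem rhoR_mul (g h : GG (k + 2)) : rhoR (g * h) ≤ rhoR g + rhoR h := by
  unfold rhoR
  have h1 := dist_triangle (oo : X (k + 2)) (g • oo) ((g * h) • oo)
  have h2 : dist (g • (oo : X (k + 2))) ((g * h) • oo) = dist (oo : X (k + 2)) (h • oo) := by
    rw [mul_smul, dist_smul]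
  linarith

theorem rhoR_cont : Continuous (rhoR : GG (k + 2) → ℝ) := by
  unfold rhoR
  exact continuous_const.dist (continuous_id.smul continuous_const)

theorem rhoR_dg (t : ℝ) : rhoR (dg t : GG (k + 2)) = |t| := by
  have h := dist_gam (1 : GG (k + 2)) 0 t
  rw [gam_eq, gam_eq, one_mul, one_mul, dg_zero, one_smul, zero_sub, abs_neg] at h
  exact h

theorem dg_cont : Continuous (dg : ℝ → GG (k + 2)) := by
  apply continuous_of_act
  intro x
  simp only [act_dg]
  have h1 : Continuous fun τ : ℝ => -(cosh τ - 1) * B e0 x + sinh τ * B e1 x := by fun_prop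
  have h2 : Continuous fun τ : ℝ => -sinh τ * B e0 x + (cosh τ - 1) * B e1 x := by fun_prop
  fun_prop

theorem act_flip_e0 : act flip (e0 : Vec (k + 2)) = e0 := by
  rw [act_flip, B_comm e2, B_comm e1, B_e0_e2, B_e0_e1]
  simp

theorem flip_smul : (flip : GG (k + 2)) • (oo : X (k + 2)) = oo :=
  Subtype.ext act_flip_e0

theorem rhoR_flip : rhoR (flip : GG (k + 2)) = 0 := by
  unfold rhoR
  rw [flip_smul, dist_self]

theorem flip_dg (t : ℝ) : (flip : GG (k + 2)) * dg t = dg (-t) * flip := by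
  apply ext_act
  intro x
  rw [act_mul, act_mul, act_dg, act_dg, act_flip, act_flip]
  simp only [B_add_right, B_sub_right, B_smul_right, cosh_neg, sinh_neg]
  rw [B_comm e2 e0, B_comm e2 e1, B_comm e1 e0, B_e0_e2, B_e1_e2, B_e0_e1, B_e1_e1]
  funext j
  simp
  ring

theorem gamR_cont : Continuous (gamR : GG (k + 2) → ℝ) := by
  unfold gamR
  exact (continuous_B continuous_const (continuous_act continuous_id continuous_const)).neg.div_const _

theorem gamR_nonneg (g : GG (k + 2)) : 0 ≤ gamR g := by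
  unfold gamR
  have := nul_xinf.B_nonpos (nul_act g)
  linarith

theorem gamR_inv (g : GG (k + 2)) : gamR g⁻¹ = gamR g := by
  unfold gamR
  rw [B_inv_act, B_comm]

theorem gamR_dg (g : GG (k + 2)) (t : ℝ) : gamR (g * dg t) = exp t * gamR g := by
  unfold gamR
  rw [act_mul, act_dg_xinf, act_smul, B_smul_right]
  ring

theorem gamR_one : gamR (1 : GG (k + 2)) = 0 := by
  unfold gamR
  rw [act_one, B_xinf_xinf]
  norm_num

theorem gamR_flip : gamR (flip : GG (k + 2)) = 1 := by
  unfold gamR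
  rw [act_flip_xinf, B_xinf_xzero]
  norm_num

theorem gamR_flip_inv (g : GG (k + 2)) : gamR (flip⁻¹ * g) = -B xzero (act g xinf) / 2 := by
  unfold gamR
  rw [act_mul, B_inv_act, act_flip_xinf]

theorem gamR_mul_flip (g : GG (k + 2)) : gamR (g * flip) = -B xinf (act g xzero) / 2 := by
  unfold gamR
  rw [act_mul, act_flip_xinf]

theorem gamR_both (g : GG (k + 2)) : gamR (flip⁻¹ * g * flip) = -B xzero (act g xzero) / 2 := by
  rw [mul_assoc, gamR_flip_inv, act_mul, act_flip_xinf]

theorem gamR_inv_mul (g h : GG (k + 2)) : gamR (g⁻¹ * h) = -B (act g xinf) (act h xinf) / 2 := by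
  unfold gamR
  rw [act_mul, B_inv_act]

theorem flip_flip : (flip : GG (k + 2)) * flip = 1 := by
  apply ext_act
  intro x
  rw [act_mul, act_one, act_flip, act_flip]
  simp only [B_sub_right, B_smul_right]
  rw [B_comm e2 e1, B_e1_e2, B_e1_e1, B_e2_e2]
  funext j
  simp
  ring

theorem gamR_flip_flip (g : GG (k + 2)) : gamR (flip * flip * g) = gamR g := by
  rw [flip_flip, one_mul]

theorem gamR_ptol (p q : GG (k + 2)) : √(gamR (p⁻¹ * q)) ≤
    √(gamR p * gamR (flip⁻¹ * q)) + √(gamR (flip⁻¹ * p) * gamR q) := by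
  have h := ptolemy (nul_act p) (nul_act q) nul_xinf (nul_xzero (k := k))
  rw [B_xinf_xzero] at h
  have e1 : B (act p xinf) (act q xinf) * -2 = 2 ^ 2 * gamR (p⁻¹ * q) := by
    rw [gamR_inv_mul]
    ring
  have e2 : B (act p xinf) xinf * B (act q xinf) xzero = 2 ^ 2 * (gamR p * gamR (flip⁻¹ * q)) := by
    rw [gamR_flip_inv, gamR, B_comm (act p xinf), B_comm (act q xinf)]
    ring
  have e3 : B (act p xinf) xzero * B (act q xinf) xinf = 2 ^ 2 * (gamR (flip⁻¹ * p) * gamR q) := by
    rw [gamR_flip_inv, gamR, B_comm (act p xinf), B_comm (act q xinf)]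
    ring
  rw [e1, e2, e3] at h
  have key : ∀ x : ℝ, √(2 ^ 2 * x) = 2 * √x := by
    intro x
    rw [sqrt_mul (by norm_num), sqrt_sq (by norm_num)]
  rw [key, key, key] at h
  linarith

theorem nmR_cont : Continuous (nmR : GG (k + 2) → ℝ) := by
  unfold nmR
  exact (continuous_apply 0).comp (continuous_act continuous_id continuous_const)

theorem nmR_one : nmR (1 : GG (k + 2)) = 1 := by
  unfold nmR
  rw [act_one, xinf_zero]

theorem nmR_dg (g : GG (k + 2)) (t : ℝ) : nmR (g * dg t) = exp t * nmR g := by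
  unfold nmR
  rw [act_mul, act_dg_xinf, act_smul]
  rfl

theorem nmR_eq (g : GG (k + 2)) : nmR g = -B (oo : X (k + 2)).1 (act g xinf) := by
  show _ = -B e0 (act g xinf)
  rw [B_e0_left, neg_neg]
  rfl

theorem nmR_mul (x g : GG (k + 2)) : nmR (x * g) ≤ exp (rhoR x) * nmR g := by
  have h := (nul_act g).le (oo : X (k + 2)) (x⁻¹ • oo)
  rw [nmR_eq, nmR_eq, act_mul]
  have h1 : dist (oo : X (k + 2)) (x⁻¹ • oo) = rhoR x := rhoR_inv x
  rw [h1, coe_smul, B_act_inv] at h
  exact h

theorem nmR_le (g : GG (k + 2)) : nmR g ≤ gamR g + gamR (flip⁻¹ * g) := by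
  apply le_of_eq
  rw [nmR_eq, gamR_flip_inv, gamR]
  show -B e0 (act g xinf) = _
  conv_lhs => rw [e0_half]
  rw [B_smul_left, B_add_left]
  ring

theorem Nul.B_ge {m : ℕ} {v w : Vec m} (hv : Nul v) (hw : Nul w) : -B v w ≤ 2 * (v 0 * w 0) := by
  have h1 := cs v w
  have h2 := hv.1
  have h3 := hw.1
  rw [B_self] at h2 h3
  rw [B_eq]
  have h4 : ∑ i : Fin m, v i.succ ^ 2 = v 0 ^ 2 := by linarith
  have h5 : ∑ i : Fin m, w i.succ ^ 2 = w 0 ^ 2 := by linarith
  rw [h4, h5, ← mul_pow] at h1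
  have h6 := abs_le_of_sq_le_sq' h1 (mul_pos hv.2 hw.2).le
  linarith [h6.1]

theorem gamR_le_mul (g h : GG (k + 2)) : gamR (g⁻¹ * h) ≤ nmR g * nmR h := by
  rw [gamR_inv_mul]
  have := (nul_act g).B_ge (nul_act h)
  unfold nmR
  linarith

theorem two_cosh_rhoR (g : GG (k + 2)) : 2 * cosh (rhoR g) =
    gamR g + gamR (flip⁻¹ * g) + gamR (g * flip) + gamR (flip⁻¹ * g * flip) := by
  unfold rhoR
  rw [cosh_dist, gamR_both, gamR_mul_flip, gamR_flip_inv, gamR]
  show 2 * -B e0 (act g e0) = _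
  conv_lhs => rw [e0_half]
  rw [B_smul_left, act_smul, B_smul_right, act_add, B_add_left, B_add_right, B_add_right]
  ring

theorem rhoR_le (g : GG (k + 2)) : exp (rhoR g) ≤
    gamR g + gamR (flip⁻¹ * g) + gamR (g * flip) + gamR (flip⁻¹ * g * flip) := by
  rw [← two_cosh_rhoR, cosh_eq]
  have := exp_pos (-rhoR g)
  linarith

/-! ### The unipotent radical -/

theorem eich_mul {m : ℕ} {v u u' : Vec m} (hv : B v v = 0) (hu : B v u = 0) (hu' : B v u' = 0) :
    eich v u * eich v u' = eich v (u + u') := by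
  have h3 : B v (u + u') = 0 := by rw [B_add_right, hu, hu', add_zero]
  apply ext_act
  intro x
  rw [act_mul, act_eich hv hu, act_eich hv hu', act_eich hv h3]
  simp only [B_sub_right, B_add_left, B_add_right, B_smul_right]
  rw [B_comm u v, hv, hu, hu', B_comm u' u]
  funext j
  simp
  ring

theorem eich_zero {m : ℕ} {v : Vec m} (hv : B v v = 0) : eich v 0 = 1 := by
  apply ext_act
  intro x
  rw [act_eich hv (B_zero_right v), act_one, B_zero_left, B_zero_left]
  simp

theorem eich_scale {m : ℕ} {v u : Vec m} (hv : B v v = 0) (hu : B v u = 0) (c : ℝ) :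
    eich (c • v) u = eich v (c • u) := by
  have h1 : B (c • v) (c • v) = 0 := by rw [B_smul_left, B_smul_right, hv]; ring
  have h2 : B (c • v) u = 0 := by rw [B_smul_left, hu]; ring
  have h3 : B v (c • u) = 0 := by rw [B_smul_right, hu]; ring
  apply ext_act
  intro x
  rw [act_eich h1 h2, act_eich hv h3]
  simp only [B_smul_left, B_smul_right]
  funext j
  simp
  ring

theorem eich_add_v {m : ℕ} {v u : Vec m} (hv : B v v = 0) (hu : B v u = 0) (c : ℝ) :
    eich v (u + c • v) = eich v u := by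
  have h1 : B v (u + c • v) = 0 := by rw [B_add_right, B_smul_right, hu, hv]; ring
  apply ext_act
  intro x
  rw [act_eich hv h1, act_eich hv hu]
  simp only [B_add_left, B_add_right, B_smul_left, B_smul_right]
  rw [B_comm u v, hu, hv]
  funext j
  simp
  ring

/-- The unipotent radical of the stabilizer of the end of `1`. -/
noncomputable def UU (k : ℕ) : Subgroup (GG (k + 2)) where
  carrier := {g | ∃ w : Vec (k + 2), B xinf w = 0 ∧ g = eich xinf w}
  mul_mem' := by
    rintro g h ⟨w, hw, rfl⟩ ⟨w', hw', rfl⟩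
    exact ⟨w + w', by rw [B_add_right, hw, hw', add_zero], eich_mul B_xinf_xinf hw hw'⟩
  one_mem' := ⟨0, B_zero_right _, (eich_zero B_xinf_xinf).symm⟩
  inv_mem' := by
    rintro g ⟨w, hw, rfl⟩
    have hw' : B xinf (-w) = 0 := by rw [B_neg_right, hw, neg_zero]
    refine ⟨-w, hw', ?_⟩
    rw [inv_eq_iff_mul_eq_one, eich_mul B_xinf_xinf hw hw', add_neg_cancel, eich_zero B_xinf_xinf]

theorem mem_UU {g : GG (k + 2)} : g ∈ UU k ↔ ∃ w : Vec (k + 2), B xinf w = 0 ∧ g = eich xinf w :=
  Iff.rfl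

/-- The normal form of the elements of the unipotent radical. -/
theorem mem_UU' {g : GG (k + 2)} (hg : g ∈ UU k) :
    ∃ w : Vec (k + 2), B xinf w = 0 ∧ B xzero w = 0 ∧ g = eich xinf w := by
  obtain ⟨w, hw, rfl⟩ := hg
  refine ⟨w + (B xzero w / 2) • xinf, ?_, ?_, (eich_add_v B_xinf_xinf hw _).symm⟩
  · rw [B_add_right, B_smul_right, hw, B_xinf_xinf]
    ring
  · rw [B_add_right, B_smul_right, B_xzero_xinf]
    ring

theorem dg_neg_inv (t : ℝ) : (dg (-t) : GG (k + 2))⁻¹ = dg t := by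
  rw [inv_eq_iff_mul_eq_one, ← dg_add, neg_add_cancel, dg_zero]

theorem UU_conj {w : Vec (k + 2)} (hw : B xinf w = 0) (t : ℝ) :
    B xinf (exp (-t) • act (dg (-t)) w) = 0 ∧
      dg (-t) * eich xinf w * dg t = eich xinf (exp (-t) • act (dg (-t)) w) := by
  have h1 : B xinf (act (dg (-t)) w) = 0 := by
    have h2 : B (act (dg (-t)) xinf) (act (dg (-t)) w) = 0 := by rw [B_act, hw]
    rw [act_dg_xinf, B_smul_left] at h2
    rcases mul_eq_zero.1 h2 with h | h
    · exact absurd h (exp_pos _).ne'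
    · exact h
  refine ⟨by rw [B_smul_right, h1, mul_zero], ?_⟩
  rw [← eich_scale B_xinf_xinf h1, ← act_dg_xinf, eich_conj, dg_neg_inv]

theorem U_dg (u : GG (k + 2)) (hu : u ∈ UU k) (t : ℝ) : dg (-t) * u * dg t ∈ UU k := by
  obtain ⟨w, hw, rfl⟩ := hu
  exact ⟨_, (UU_conj hw t).1, (UU_conj hw t).2⟩

theorem U_fix {u : GG (k + 2)} (hu : u ∈ UU k) : act u xinf = xinf := by
  obtain ⟨w, hw, rfl⟩ := hu
  rw [act_eich B_xinf_xinf hw, B_comm w, hw, B_xinf_xinf]
  simp

theorem gamR_U (u : GG (k + 2)) (hu : u ∈ UU k) (g : GG (k + 2)) : gamR (u * g) = gamR g := by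
  have h := gamR_inv_mul u⁻¹ g
  rw [inv_inv, U_fix (inv_mem hu)] at h
  exact h

theorem nmR_U (u : GG (k + 2)) (hu : u ∈ UU k) (g : GG (k + 2)) : nmR (g * u) = nmR g := by
  unfold nmR
  rw [act_mul, U_fix hu]

/-- The vector of `nuR`. -/
noncomputable def nuV (g : GG (k + 2)) : Vec (k + 2) :=
  (1 / B xinf (act g xinf)) • act g xinf + (1 / 2 : ℝ) • xzero

/-- The unipotent element which maps `0` to the end of `g`. -/
noncomputable def nuR (g : GG (k + 2)) : GG (k + 2) := eich xinf (nuV g)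

theorem gamR_ne {g : GG (k + 2)} : gamR g ≠ 0 ↔ B xinf (act g xinf) ≠ 0 := by
  unfold gamR
  constructor
  · intro h h0
    exact h (by rw [h0]; norm_num)
  · intro h h0
    exact h (by linarith)

theorem B_nuV {g : GG (k + 2)} (h : B xinf (act g xinf) ≠ 0) : B xinf (nuV g) = 0 := by
  unfold nuV
  rw [B_add_right, B_smul_right, B_smul_right, B_xinf_xzero]
  field_simp
  ring

theorem nuR_mem (g : GG (k + 2)) : nuR g ∈ UU k := by
  by_cases h : B xinf (nuV g) = 0
  · exact ⟨nuV g, h, rfl⟩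
  · have : nuR g = 1 := by
      unfold nuR eich
      rw [dif_neg]
      rintro ⟨-, h2⟩
      exact h h2
    rw [this]
    exact one_mem _

theorem act_nuR_xzero {g : GG (k + 2)} (h : B xinf (act g xinf) ≠ 0) :
    act (nuR g) xzero = (-2 / B xinf (act g xinf)) • act g xinf := by
  unfold nuR
  rw [act_eich B_xinf_xinf (B_nuV h)]
  unfold nuV
  simp only [B_add_left, B_add_right, B_smul_left, B_smul_right]
  rw [B_xinf_xzero, B_xzero_xzero, (nul_act g).1, B_comm (act g xinf) xzero]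
  funext j
  simp
  field_simp
  ring

theorem nuR_end (g : GG (k + 2)) (h : gamR g ≠ 0) : gamR ((nuR g * flip)⁻¹ * g) = 0 := by
  rw [gamR_inv_mul, act_mul, act_flip_xinf, act_nuR_xzero (gamR_ne.1 h), B_smul_left,
    (nul_act g).1]
  norm_num

theorem nuR_cont : ContinuousOn (nuR : GG (k + 2) → GG (k + 2)) {g | gamR g ≠ 0} := by
  apply continuousOn_of_act
  intro x
  have h1 : Continuous fun g : GG (k + 2) => act g xinf :=
    continuous_act continuous_id continuous_const
  have h2 : ContinuousOn (nuV : GG (k + 2) → Vec (k + 2)) {g | gamR g ≠ 0} := by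
    unfold nuV
    have h5 : ContinuousOn (fun g : GG (k + 2) => 1 / B xinf (act g xinf)) {g | gamR g ≠ 0} := by
      refine ContinuousOn.div continuousOn_const
        (continuous_B continuous_const h1).continuousOn ?_
      intro g hg
      exact gamR_ne.1 hg
    fun_prop
  have hB : ∀ f f' : GG (k + 2) → Vec (k + 2), ContinuousOn f {g | gamR g ≠ 0} →
      ContinuousOn f' {g | gamR g ≠ 0} → ContinuousOn (fun g => B (f g) (f' g)) {g | gamR g ≠ 0} := by
    intro f f' hf hf'
    rw [continuousOn_iff_continuous_domRestrict] at hf hf' ⊢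
    exact continuous_B hf hf'
  have h3 : ContinuousOn (fun g : GG (k + 2) => x + B xinf x • nuV g - B (nuV g) x • xinf -
      (B (nuV g) (nuV g) / 2 * B xinf x) • xinf) {g | gamR g ≠ 0} := by
    have h5 := hB _ _ h2 (continuousOn_const (c := x))
    have h6 := hB _ _ h2 h2
    fun_prop
  refine h3.congr ?_
  intro g hg
  exact act_eich B_xinf_xinf (B_nuV (gamR_ne.1 hg)) x

end Pool.Agent.Helper24.BR
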