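import Pool.Agent.Helper24.BR.InsA

/-!
# Project BR: the rank one data of `SO_0(k + 2, 1)`, second part: the distance to the identity
-/

open Matrix Real Filter Topology

namespace Pool.Agent.Helper24.BR

variable {m k : ℕ}

/-- The square of the Frobenius norm. -/
def fr2 (M : Mat m) : ℝ := ∑ i, ∑ j, M i j ^ 2

theorem fr2_nonneg (M : Mat m) : 0 ≤ fr2 M :=
  Finset.sum_nonneg fun _ _ => Finset.sum_nonneg fun _ _ => sq_nonneg _

theorem fr2_mul (M N : Mat m) : fr2 (M * N) ≤ fr2 M * fr2 N := by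
  unfold fr2
  have h1 : ∀ i j, (M * N) i j ^ 2 ≤ (∑ l, M i l ^ 2) * ∑ l, N l j ^ 2 := by
    intro i j
    rw [mul_apply]
    exact Finset.sum_mul_sq_le_sq_mul_sq _ _ _
  calc ∑ i, ∑ j, (M * N) i j ^ 2 ≤ ∑ i, ∑ j, (∑ l, M i l ^ 2) * ∑ l, N l j ^ 2 :=
        Finset.sum_le_sum fun i _ => Finset.sum_le_sum fun j _ => h1 i j
    _ = (∑ i, ∑ l, M i l ^ 2) * ∑ j, ∑ l, N l j ^ 2 := by
        rw [Finset.sum_mul_sum]
    _ = _ := by
        rw [Finset.sum_comm (f := fun j l => N l j ^ 2)]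

theorem fr2_mulVec (M : Mat m) (x : Vec m) : (M *ᵥ x) ⬝ᵥ (M *ᵥ x) ≤ fr2 M * (x ⬝ᵥ x) := by
  unfold fr2 dotProduct
  have h1 : ∀ i, (M *ᵥ x) i * (M *ᵥ x) i ≤ (∑ l, M i l ^ 2) * ∑ l, x l ^ 2 := by
    intro i
    rw [← sq]
    show (∑ l, M i l * x l) ^ 2 ≤ _
    exact Finset.sum_mul_sq_le_sq_mul_sq Finset.univ (fun l => M i l) x
  calc ∑ i, (M *ᵥ x) i * (M *ᵥ x) i ≤ ∑ i, (∑ l, M i l ^ 2) * ∑ l, x l ^ 2 :=
        Finset.sum_le_sum fun i _ => h1 i
    _ = (∑ i, ∑ l, M i l ^ 2) * ∑ l, x l ^ 2 := by rw [Finset.sum_mul]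
    _ = _ := by
        congr 1
        exact Finset.sum_congr rfl fun l _ => by ring

/-- The Frobenius norm of an element of the group. -/
theorem fr2_mat (g : GG m) : fr2 (mat g) = 4 * mat g 0 0 ^ 2 + m - 3 := by
  unfold fr2
  rw [Finset.sum_comm, Fin.sum_univ_succ]
  have h0 : ∑ i, mat g i 0 ^ 2 = 2 * mat g 0 0 ^ 2 - 1 := by
    rw [Fin.sum_univ_succ, col_zero]
    ring
  have h1 : ∀ j : Fin m, ∑ i, mat g i j.succ ^ 2 = 1 + 2 * mat g 0 j.succ ^ 2 := by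
    intro j
    rw [Fin.sum_univ_succ, col_sq]
    ring
  rw [h0, Finset.sum_congr rfl fun j _ => h1 j, Finset.sum_add_distrib, ← Finset.mul_sum, row_zero]
  simp
  ring

theorem fr2_mat_le (g : GG m) : fr2 (mat g) ≤ (m + 4) * mat g 0 0 ^ 2 := by
  rw [fr2_mat]
  have h1 := one_le_entry g
  have h2 : (1 : ℝ) ≤ mat g 0 0 ^ 2 := by nlinarith
  have h3 : (0 : ℝ) ≤ m := Nat.cast_nonneg m
  nlinarith

/-- The distance to the identity. -/
noncomputable def ER (g : GG m) : ℝ := √(fr2 (mat g - 1))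

theorem ER_nonneg (g : GG m) : 0 ≤ ER g := sqrt_nonneg _

theorem ER_sq (g : GG m) : ER g ^ 2 = fr2 (mat g - 1) := sq_sqrt (fr2_nonneg _)

theorem ER_cont : Continuous (ER : GG m → ℝ) := by
  unfold ER fr2
  refine continuous_sqrt.comp ?_
  refine continuous_finsetSum _ fun i _ => continuous_finsetSum _ fun j _ => ?_
  exact ((continuous_entry i j).sub continuous_const).pow 2

theorem ER_one : ER (1 : GG m) = 0 := by
  unfold ER fr2
  rw [mat_one, sub_self]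
  simp

theorem one_entry (i j : Fin (m + 1)) : (1 : Mat m) i j =
    (if i = 0 then -1 else 1) * ((if j = 0 then -1 else 1) * (1 : Mat m) j i) := by
  by_cases h : i = j
  · subst h
    rw [one_apply_eq]
    by_cases h0 : i = 0 <;> simp [h0]
  · rw [one_apply_ne h, one_apply_ne (Ne.symm h)]
    ring

theorem ER_inv (g : GG m) : ER g⁻¹ = ER g := by
  unfold ER fr2
  congr 1
  rw [Finset.sum_comm]
  refine Finset.sum_congr rfl fun i _ => Finset.sum_congr rfl fun j _ => ?_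
  rw [Matrix.sub_apply, Matrix.sub_apply, mat_inv, one_entry j i]
  by_cases h0 : i = 0 <;> by_cases h1 : j = 0 <;> simp [h0, h1] <;> ring

theorem ER_conj (x g : GG (k + 2)) :
    ER (x⁻¹ * g * x) ≤ ((k : ℝ) + 6) * exp (2 * rhoR x) * ER g := by
  have h1 : mat (x⁻¹ * g * x) - 1 = mat x⁻¹ * (mat g - 1) * mat x := by
    rw [mul_sub, sub_mul, mul_one, ← mat_mul, ← mat_mul, ← mat_mul, inv_mul_cancel, mat_one]
  have hx : mat x 0 0 ≤ exp (rhoR x) := by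
    rw [← cosh_disp]
    show cosh (rhoR x) ≤ _
    rw [cosh_eq]
    have h0 : 0 ≤ rhoR x := dist_nonneg
    have : exp (-rhoR x) ≤ exp (rhoR x) := exp_le_exp.2 (by linarith)
    linarith
  have h00 : ∀ y : GG (k + 2), fr2 (mat y) ≤ ((k : ℝ) + 6) * mat y 0 0 ^ 2 := by
    intro y
    have := fr2_mat_le y
    push_cast at this
    linarith
  have hxi : mat x⁻¹ 0 0 = mat x 0 0 := by
    rw [mat_inv]
    simp
  have h2 : fr2 (mat (x⁻¹ * g * x) - 1) ≤
      (((k : ℝ) + 6) * exp (2 * rhoR x) * ER g) ^ 2 := by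
    rw [h1]
    have h3 := fr2_mul (mat x⁻¹ * (mat g - 1)) (mat x)
    have h4 := fr2_mul (mat x⁻¹) (mat g - 1)
    have h5 := h00 x
    have h6 := h00 x⁻¹
    rw [hxi] at h6
    have h7 : 0 ≤ mat x 0 0 := by linarith [one_le_entry x]
    have h8 : mat x 0 0 ^ 2 ≤ exp (2 * rhoR x) := by
      calc mat x 0 0 ^ 2 ≤ exp (rhoR x) ^ 2 := pow_le_pow_left₀ h7 hx 2
        _ = _ := by rw [← exp_nat_mul]; norm_num
    have h9 : (0 : ℝ) ≤ (k : ℝ) + 6 := by positivity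
    have h10 : fr2 (mat x) ≤ ((k : ℝ) + 6) * exp (2 * rhoR x) :=
      h5.trans (mul_le_mul_of_nonneg_left h8 h9)
    have h11 : fr2 (mat x⁻¹) ≤ ((k : ℝ) + 6) * exp (2 * rhoR x) :=
      h6.trans (mul_le_mul_of_nonneg_left h8 h9)
    calc fr2 (mat x⁻¹ * (mat g - 1) * mat x) ≤ fr2 (mat x⁻¹ * (mat g - 1)) * fr2 (mat x) := h3
      _ ≤ (fr2 (mat x⁻¹) * fr2 (mat g - 1)) * fr2 (mat x) :=
          mul_le_mul_of_nonneg_right h4 (fr2_nonneg _)
      _ ≤ ((((k : ℝ) + 6) * exp (2 * rhoR x)) * fr2 (mat g - 1)) *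
          (((k : ℝ) + 6) * exp (2 * rhoR x)) := by
          refine mul_le_mul (mul_le_mul_of_nonneg_right h11 (fr2_nonneg _)) h10 (fr2_nonneg _) ?_
          exact mul_nonneg (by positivity) (fr2_nonneg _)
      _ = _ := by
          rw [mul_pow, ER_sq]
          ring
  have h12 : 0 ≤ ((k : ℝ) + 6) * exp (2 * rhoR x) * ER g :=
    mul_nonneg (by positivity) (ER_nonneg g)
  calc ER (x⁻¹ * g * x) ≤ √((((k : ℝ) + 6) * exp (2 * rhoR x) * ER g) ^ 2) := sqrt_le_sqrt h2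
    _ = _ := sqrt_sq h12

theorem sinh_rhoR_sq (g : GG (k + 2)) : sinh (rhoR g) ^ 2 = ∑ i : Fin (k + 2), mat g i.succ 0 ^ 2 := by
  rw [col_zero, ← cosh_disp, sinh_sq]
  rfl

theorem rhoR_le_ER (g : GG (k + 2)) : rhoR g ≤ ER g := by
  have h0 : 0 ≤ rhoR g := dist_nonneg
  have h1 : rhoR g ≤ sinh (rhoR g) := self_le_sinh_iff.2 h0
  refine h1.trans ?_
  apply le_sqrt_of_sq_le
  rw [sinh_rhoR_sq]
  unfold fr2
  rw [Fin.sum_univ_succ (f := fun i => ∑ j, (mat g - 1) i j ^ 2)]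
  have h2 : ∀ i : Fin (k + 2), mat g i.succ 0 ^ 2 ≤ ∑ j, (mat g - 1) i.succ j ^ 2 := by
    intro i
    have h3 := Finset.single_le_sum (f := fun j => (mat g - 1) i.succ j ^ 2)
      (fun j _ => sq_nonneg _) (Finset.mem_univ 0)
    have h4 : (mat g - 1) i.succ 0 = mat g i.succ 0 := by
      rw [Matrix.sub_apply, one_apply_ne (Fin.succ_ne_zero i), sub_zero]
    simp only [h4] at h3
    exact h3
  have h5 : 0 ≤ ∑ j, (mat g - 1) 0 j ^ 2 := Finset.sum_nonneg fun _ _ => sq_nonneg _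
  have h6 := Finset.sum_le_sum fun i (_ : i ∈ Finset.univ) => h2 i
  linarith

/-- Sum of squares of a difference of two tensors. -/
theorem sum_tensor (a b c d : Vec m) : ∑ i, ∑ j, (a i * b j - c i * d j) ^ 2 =
    (a ⬝ᵥ a) * (b ⬝ᵥ b) + (c ⬝ᵥ c) * (d ⬝ᵥ d) - 2 * ((a ⬝ᵥ c) * (b ⬝ᵥ d)) := by
  unfold dotProduct
  rw [Finset.sum_mul_sum, Finset.sum_mul_sum, Finset.sum_mul_sum, Finset.mul_sum,
    ← Finset.sum_add_distrib, ← Finset.sum_sub_distrib]
  refine Finset.sum_congr rfl fun i _ => ?_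
  rw [Finset.mul_sum, ← Finset.sum_add_distrib, ← Finset.sum_sub_distrib]
  exact Finset.sum_congr rfl fun j _ => by ring

theorem Jv_dot_Jv (x y : Vec m) : Jv x ⬝ᵥ Jv y = x ⬝ᵥ y := by
  unfold dotProduct Jv
  refine Finset.sum_congr rfl fun i _ => ?_
  by_cases h : i = 0 <;> simp [h]

theorem dot_eq (x y : Vec m) : x ⬝ᵥ y = B x y + 2 * (x 0 * y 0) := by
  unfold B
  ring

/-- The distance of a unipotent element to the identity. -/
theorem ER_eich {w : Vec (k + 2)} (h1 : B xinf w = 0) (h2 : B xzero w = 0) :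
    ER (eich xinf w) ^ 2 = 4 * B w w + B w w ^ 2 := by
  have hw0 : w 0 = 0 := by
    have h3 : B e0 w = 0 := by
      rw [e0_half, B_smul_left, B_add_left, h1, h2]
      ring
    rw [B_e0_left] at h3
    linarith
  rw [ER_sq]
  have h4 : mat (eich xinf w) = eiM xinf w := by
    unfold eich
    rw [dif_pos ⟨B_xinf_xinf, h1⟩]
    rfl
  have h5 : ∀ i j, (mat (eich xinf w) - 1) i j =
      w i * Jv xinf j - xinf i * (Jv w + (B w w / 2) • Jv xinf : Vec (k + 2)) j := by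
    intro i j
    rw [h4]
    unfold eiM
    simp only [Matrix.sub_apply, Matrix.add_apply, Matrix.smul_apply, vecMulVec_apply, Pi.add_apply, Pi.smul_apply,
      smul_eq_mul]
    ring
  unfold fr2
  simp only [h5]
  rw [sum_tensor, add_dotProduct, dotProduct_add, dotProduct_add, smul_dotProduct, smul_dotProduct,
    dotProduct_smul, dotProduct_smul, dotProduct_add, dotProduct_smul, Jv_dot_Jv, Jv_dot_Jv,
    Jv_dot_Jv, Jv_dot_Jv]
  have e1 : w ⬝ᵥ w = B w w := by rw [dot_eq, hw0]; ring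
  have e2 : (xinf : Vec (k + 2)) ⬝ᵥ xinf = 2 := by rw [dot_eq, B_xinf_xinf, xinf_zero]; ring
  have e3 : w ⬝ᵥ (xinf : Vec (k + 2)) = 0 := by rw [dot_eq, B_comm, h1, hw0]; ring
  have e4 : (xinf : Vec (k + 2)) ⬝ᵥ w = 0 := by rw [dot_eq, h1, hw0]; ring
  rw [e1, e2, e3, e4]
  simp only [smul_eq_mul]
  ring

theorem gamR_eich {w : Vec (k + 2)} (h1 : B xinf w = 0) (h2 : B xzero w = 0) :
    gamR (flip⁻¹ * eich xinf w * flip) = B w w := by
  rw [gamR_both, act_eich B_xinf_xinf h1]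
  simp only [B_sub_right, B_add_right, B_smul_right]
  rw [B_xinf_xzero, B_xzero_xzero, B_xzero_xinf, h2, B_comm w, h2]
  ring

theorem B_self_nonneg {w : Vec (k + 2)} (h1 : B xinf w = 0) : 0 ≤ B w w :=
  null_orth B_xinf_xinf (by rw [xinf_zero]; norm_num) h1

theorem sinh_eich {w : Vec (k + 2)} (h1 : B xinf w = 0) :
    4 * sinh (rhoR (eich xinf w)) ^ 2 = 4 * B w w + B w w ^ 2 := by
  have h3 : cosh (rhoR (eich xinf w)) = 1 + B w w / 2 := by
    unfold rhoR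
    rw [cosh_disp_eich B_xinf_xinf h1]
    show 1 + B w w / 2 * (B xinf e0) ^ 2 = _
    rw [B_e0_right, xinf_zero]
    ring
  rw [sinh_sq, h3]
  ring

theorem ER_sinh (u : GG (k + 2)) (hu : u ∈ UU k) : ER u ≤ 2 * sinh (rhoR u) := by
  obtain ⟨w, h1, h2, rfl⟩ := mem_UU' hu
  have h3 := ER_eich h1 h2
  have h4 := sinh_eich h1
  have h5 : 0 ≤ 2 * sinh (rhoR (eich xinf w)) := by
    have : 0 ≤ rhoR (eich xinf w) := dist_nonneg
    have := sinh_nonneg_iff.2 this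
    linarith
  refine (abs_le_of_sq_le_sq' ?_ h5).2
  rw [h3, mul_pow]
  linarith

theorem ER_le_sq (u : GG (k + 2)) (hu : u ∈ UU k) : ER u ^ 2 ≤
    4 * gamR (flip⁻¹ * u * flip) + gamR (flip⁻¹ * u * flip) ^ 2 := by
  obtain ⟨w, h1, h2, rfl⟩ := mem_UU' hu
  rw [ER_eich h1 h2, gamR_eich h1 h2]

theorem act_dg_fix {w : Vec (k + 2)} (h1 : B xinf w = 0) (h2 : B xzero w = 0) (t : ℝ) :
    act (dg t) w = w := by
  have h3 : B e0 w = 0 := by
    rw [e0_half, B_smul_left, B_add_left, h1, h2]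
    ring
  have h4 : B e1 w = 0 := by
    have : (e1 : Vec (k + 2)) = xinf - e0 := by
      unfold xinf
      abel
    rw [this, B_sub_left, h1, h3, sub_zero]
  rw [act_dg, h3, h4]
  simp

theorem ER_dg (u : GG (k + 2)) (hu : u ∈ UU k) (a : ℝ) (ha : 0 ≤ a) :
    ER (dg (-a) * u * dg a) ≤ exp (-a) * ER u := by
  obtain ⟨w, h1, h2, rfl⟩ := mem_UU' hu
  obtain ⟨h3, h4⟩ := UU_conj h1 a
  rw [act_dg_fix h1 h2] at h3 h4
  have h5 : B xzero (exp (-a) • w) = 0 := by rw [B_smul_right, h2, mul_zero]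
  have h6 := ER_eich h3 h5
  rw [h4]
  have h7 : 0 ≤ exp (-a) * ER (eich xinf w) := mul_nonneg (exp_pos _).le (ER_nonneg _)
  refine (abs_le_of_sq_le_sq' ?_ h7).2
  rw [h6, mul_pow, ER_eich h1 h2, B_smul_left, B_smul_right]
  have h8 : exp (-a) ≤ 1 := exp_le_one_iff.2 (by linarith)
  have h9 := exp_pos (-a)
  have h10 : exp (-a) ^ 2 ≤ 1 := pow_le_one₀ h9.le h8
  have h11 : 0 ≤ exp (-a) ^ 2 * B w w ^ 2 := by positivity
  nlinarith

theorem B_sq_le (x y : Vec m) : B x y ^ 2 ≤ (x ⬝ᵥ x) * (y ⬝ᵥ y) := by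
  rw [← Jv_dot, ← Jv_dot_Jv x x]
  unfold dotProduct
  have := Finset.sum_mul_sq_le_sq_mul_sq Finset.univ (Jv x) y
  calc (∑ i, Jv x i * y i) ^ 2 ≤ (∑ i, Jv x i ^ 2) * ∑ i, y i ^ 2 := this
    _ = _ := by
      congr 1 <;> exact Finset.sum_congr rfl fun i _ => by ring

theorem ER_pair (g p h : GG (k + 2)) :
    |gamR (g⁻¹ * p * h) - gamR (g⁻¹ * h)| ≤ ER p * nmR g * nmR h := by
  have hg := nul_act g
  have hh := nul_act h
  have e1 : gamR (g⁻¹ * p * h) - gamR (g⁻¹ * h) =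
      -B (act g xinf) ((mat p - 1) *ᵥ act h xinf) / 2 := by
    rw [mul_assoc, gamR_inv_mul, gamR_inv_mul, act_mul, sub_mulVec, one_mulVec, B_sub_right]
    show _ = -(B (act g xinf) (act p (act h xinf)) - _) / 2
    ring
  have hn : 0 ≤ ER p * nmR g * nmR h :=
    mul_nonneg (mul_nonneg (ER_nonneg p) hg.2.le) hh.2.le
  have e2 : (gamR (g⁻¹ * p * h) - gamR (g⁻¹ * h)) ^ 2 ≤ (ER p * nmR g * nmR h) ^ 2 := by
    rw [e1]
    have h1 := B_sq_le (act g xinf) ((mat p - 1) *ᵥ act h xinf)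
    have h2 := fr2_mulVec (mat p - 1) (act h xinf)
    have h3 : (act g xinf) ⬝ᵥ (act g xinf) = 2 * nmR g ^ 2 := by
      rw [dot_eq, hg.1]
      unfold nmR
      ring
    have h4 : (act h xinf) ⬝ᵥ (act h xinf) = 2 * nmR h ^ 2 := by
      rw [dot_eq, hh.1]
      unfold nmR
      ring
    rw [h4] at h2
    rw [h3] at h1
    have h5 : B (act g xinf) ((mat p - 1) *ᵥ act h xinf) ^ 2 ≤
        2 * nmR g ^ 2 * (fr2 (mat p - 1) * (2 * nmR h ^ 2)) :=
      h1.trans (mul_le_mul_of_nonneg_left h2 (by positivity))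
    rw [mul_pow, mul_pow, ER_sq]
    nlinarith
  have e3 := sq_le_sq.1 e2
  rwa [abs_of_nonneg hn] at e3

end Pool.Agent.Helper24.BR
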