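import Pool.Agent.Helper24.BR.LorG

/-!
# Project BR: radial maps of real hyperbolic space

`rad p r z` is the point of the segment from `p` to `z` at the distance `min r (dist p z)`
from `p`.
-/

open Matrix Real

namespace Pool.Agent.Helper24.BR

variable {m : ℕ}

theorem abs_eq_of_cosh {a b : ℝ} (h : cosh a = cosh b) : |a| = |b| :=
  le_antisymm (cosh_le_cosh.1 h.le) (cosh_le_cosh.1 h.ge)

theorem sinh_le_mul_exp {x : ℝ} : sinh x ≤ x * exp x := by
  have h1 : exp (-x) = exp x * exp (-(2 * x)) := by
    rw [← exp_add]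
    congr 1
    ring
  have h2 := add_one_le_exp (-(2 * x))
  rw [sinh_eq, h1]
  have h3 := exp_pos x
  nlinarith

/-- The clipped parameter. -/
noncomputable def cl (p : X m) (r : ℝ) (z : X m) : ℝ := min (max r 0) (dist p z)

/-- The coefficient of `z`. -/
noncomputable def cq (p : X m) (r : ℝ) (z : X m) : ℝ := sinh (cl p r z) / sinh (dist p z)

theorem cl_nonneg (p : X m) (r : ℝ) (z : X m) : 0 ≤ cl p r z :=
  le_min (le_max_right _ _) dist_nonneg

theorem cl_le (p : X m) (r : ℝ) (z : X m) : cl p r z ≤ dist p z := min_le_right _ _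

theorem cq_mul (p : X m) (r : ℝ) (z : X m) : cq p r z * sinh (dist p z) = sinh (cl p r z) := by
  unfold cq
  by_cases h : sinh (dist p z) = 0
  · rw [h, mul_zero]
    have h1 : dist p z = 0 := sinh_eq_zero.1 h
    have h2 : cl p r z = 0 := le_antisymm (h1 ▸ cl_le p r z) (cl_nonneg p r z)
    rw [h2, sinh_zero]
  · exact div_mul_cancel₀ _ h

theorem cq_nonneg (p : X m) (r : ℝ) (z : X m) : 0 ≤ cq p r z :=
  div_nonneg (sinh_nonneg_iff.2 (cl_nonneg p r z)) (sinh_nonneg_iff.2 dist_nonneg)

theorem cq_le_one (p : X m) (r : ℝ) (z : X m) : cq p r z ≤ 1 :=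
  div_le_one_of_le₀ (sinh_le_sinh.2 (cl_le p r z)) (sinh_nonneg_iff.2 dist_nonneg)

/-- The vector of the radial point. -/
noncomputable def radV (p : X m) (r : ℝ) (z : X m) : Vec m :=
  (cosh (cl p r z) - cq p r z * cosh (dist p z)) • p.1 + cq p r z • z.1

theorem B_radV (p z z' : X m) (r r' : ℝ) : -B (radV p r z) (radV p r' z') =
    cosh (cl p r z - cl p r' z') + cq p r z * cq p r' z' *
      (cosh (dist z z') - cosh (dist p z - dist p z')) := by
  have h1 := cq_mul p r z
  have h2 := cq_mul p r' z'
  unfold radV
  simp only [B_add_left, B_add_right, B_smul_left, B_smul_right]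
  have e1 : B p.1 z'.1 = -cosh (dist p z') := by rw [cosh_dist, neg_neg]
  have e2 : B z.1 p.1 = -cosh (dist p z) := by rw [cosh_dist, neg_neg, B_comm]
  have e3 : B z.1 z'.1 = -cosh (dist z z') := by rw [cosh_dist, neg_neg]
  rw [e1, e2, e3, p.self, cosh_sub, cosh_sub, ← h1, ← h2]
  ring

theorem B_radV_p (p z : X m) (r : ℝ) : -B (radV p r z) p.1 = cosh (cl p r z) := by
  unfold radV
  rw [B_add_left, B_smul_left, B_smul_left, p.self]
  have e2 : B z.1 p.1 = -cosh (dist p z) := by rw [cosh_dist, neg_neg, B_comm]
  rw [e2]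
  ring

theorem radV_self (p z : X m) (r : ℝ) : B (radV p r z) (radV p r z) = -1 := by
  have h := B_radV p z z r r
  rw [sub_self, cosh_zero, dist_self, cosh_zero, sub_self, cosh_zero, sub_self, mul_zero,
    add_zero] at h
  linarith

/-- The radial map. -/
noncomputable def rad (p : X m) (r : ℝ) (z : X m) : X m :=
  ⟨radV p r z, radV_self p z r, sheet (radV_self p z r) p.self p.pos (by
    have h := B_radV_p p z r
    have := cosh_pos (cl p r z)
    linarith)⟩

/-- The basic identity. -/
theorem cosh_dist_rad (p z z' : X m) (r r' : ℝ) : cosh (dist (rad p r z) (rad p r' z')) =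
    cosh (cl p r z - cl p r' z') + cq p r z * cq p r' z' *
      (cosh (dist z z') - cosh (dist p z - dist p z')) := by
  rw [cosh_dist]
  exact B_radV p z z' r r'

theorem smul_rad (g : GG m) (p : X m) (r : ℝ) (z : X m) :
    rad (g • p) r (g • z) = g • rad p r z := by
  apply Subtype.ext
  rw [coe_smul]
  show radV (g • p) r (g • z) = act g (radV p r z)
  unfold radV cq cl
  rw [dist_smul, coe_smul, coe_smul, act_add, act_smul, act_smul]

theorem rad_nonpos (p z : X m) {r : ℝ} (hr : r ≤ 0) : rad p r z = p := by
  apply Subtype.ext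
  show radV p r z = p.1
  have h : cl p r z = 0 := by
    unfold cl
    rw [max_eq_right hr, min_eq_left dist_nonneg]
  unfold radV cq
  rw [h, sinh_zero, zero_div, cosh_zero, zero_mul, sub_zero, one_smul, zero_smul, add_zero]

theorem rad_zero (p z : X m) : rad p 0 z = p := rad_nonpos p z le_rfl

theorem rad_far (p z : X m) {r : ℝ} (h : dist p z ≤ r) : rad p r z = z := by
  apply Subtype.ext
  show radV p r z = z.1
  have hr : 0 ≤ r := le_trans dist_nonneg h
  have h1 : cl p r z = dist p z := by
    unfold cl
    rw [max_eq_left hr, min_eq_right h]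
  rcases (dist_nonneg (x := p) (y := z)).eq_or_lt with h0 | h0
  · have hpz : p = z := dist_eq_zero.1 h0.symm
    unfold radV cq
    rw [h1, ← h0, sinh_zero, cosh_zero, div_zero, zero_mul, sub_zero, one_smul, zero_smul,
      add_zero, hpz]
  · have h2 : cq p r z = 1 := by
      unfold cq
      rw [h1]
      exact div_self (sinh_pos_iff.2 h0).ne'
    unfold radV
    rw [h2, h1, one_mul, sub_self, zero_smul, one_smul, zero_add]

theorem dist_rad_self (p z : X m) (r : ℝ) : dist p (rad p r z) = cl p r z := by
  have h : cosh (dist (rad p r z) p) = cosh (cl p r z) := by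
    rw [cosh_dist]
    exact B_radV_p p z r
  rw [dist_comm]
  have h1 : |dist (rad p r z) p| = |cl p r z| := abs_eq_of_cosh h
  rwa [abs_of_nonneg dist_nonneg, abs_of_nonneg (cl_nonneg p r z)] at h1

theorem dist_rad_rad (p z : X m) (r r' : ℝ) :
    dist (rad p r z) (rad p r' z) = |cl p r z - cl p r' z| := by
  have h := cosh_dist_rad p z z r r'
  rw [dist_self, cosh_zero, sub_self, cosh_zero, sub_self, mul_zero, add_zero] at h
  have h1 := abs_eq_of_cosh h
  rwa [abs_of_nonneg dist_nonneg] at h1

theorem dist_rad_rad_le (p z : X m) (r r' : ℝ) : dist (rad p r z) (rad p r' z) ≤ |r - r'| := by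
  rw [dist_rad_rad]
  unfold cl
  refine (abs_min_sub_min_le_max _ _ _ _).trans ?_
  rw [sub_self, abs_zero, max_eq_left (abs_nonneg _)]
  refine (abs_max_sub_max_le_max _ _ _ _).trans ?_
  rw [sub_self, abs_zero, max_eq_left (abs_nonneg _)]

theorem dist_rad_end (p z : X m) (r : ℝ) : dist (rad p r z) z = dist p z - cl p r z := by
  have h1 := dist_rad_rad p z r (dist p z)
  rw [rad_far p z le_rfl] at h1
  have h2 : cl p (dist p z) z = dist p z := by
    unfold cl
    rw [max_eq_left dist_nonneg, min_self]
  rw [h1, h2, abs_sub_comm, abs_of_nonneg (sub_nonneg.2 (cl_le p r z))]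

theorem delta_nonneg (p z z' : X m) : 0 ≤ cosh (dist z z') - cosh (dist p z - dist p z') := by
  have h : |dist p z - dist p z'| ≤ dist z z' := by
    rw [dist_comm p z, dist_comm p z']
    exact abs_dist_sub_le z z' p
  have : cosh (dist p z - dist p z') ≤ cosh (dist z z') := by
    rw [cosh_le_cosh, abs_of_nonneg (dist_nonneg (x := z) (y := z'))]
    exact h
  linarith

theorem abs_cl_sub_le (p z z' : X m) (r : ℝ) :
    |cl p r z - cl p r z'| ≤ |dist p z - dist p z'| := by
  unfold cl
  refine (abs_min_sub_min_le_max _ _ _ _).trans ?_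
  rw [sub_self, abs_zero, max_eq_right (abs_nonneg _)]

/-- The radial maps do not increase distances. -/
theorem dist_rad_le (p z z' : X m) (r : ℝ) : dist (rad p r z) (rad p r z') ≤ dist z z' := by
  have h := cosh_dist_rad p z z' r r
  have h1 := delta_nonneg p z z'
  have h2 : cosh (cl p r z - cl p r z') ≤ cosh (dist p z - dist p z') :=
    cosh_le_cosh.2 (abs_cl_sub_le p z z' r)
  have h3 : cq p r z * cq p r z' ≤ 1 :=
    mul_le_one₀ (cq_le_one p r z) (cq_nonneg p r z') (cq_le_one p r z')
  have h4 : cosh (dist (rad p r z) (rad p r z')) ≤ cosh (dist z z') := by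
    rw [h]
    nlinarith
  have h5 := cosh_le_cosh.1 h4
  rwa [abs_of_nonneg dist_nonneg, abs_of_nonneg dist_nonneg] at h5

/-- The quotient of hyperbolic sines. -/
theorem cq_le_exp (p : X m) (r : ℝ) (z : X m) : cq p r z ≤ exp (cl p r z - dist p z) := by
  unfold cq
  have h0 := cl_nonneg p r z
  have h1 := cl_le p r z
  set s := cl p r z
  set ρ := dist p z
  rcases (dist_nonneg (x := p) (y := z)).eq_or_lt with h2 | h2
  · have h3 : ρ = 0 := h2.symm
    rw [h3, sinh_zero, div_zero]
    exact (exp_pos _).le
  · have h3 : 0 < sinh ρ := sinh_pos_iff.2 h2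
    rw [div_le_iff₀ h3, sinh_eq, sinh_eq]
    have e1 : exp (s - ρ) * ((exp ρ - exp (-ρ)) / 2) = (exp s - exp (s - 2 * ρ)) / 2 := by
      have a1 : exp (s - ρ) * exp ρ = exp s := by
        rw [← exp_add]
        congr 1
        ring
      have a2 : exp (s - ρ) * exp (-ρ) = exp (s - 2 * ρ) := by
        rw [← exp_add]
        congr 1
        ring
      rw [← a1, ← a2]
      ring
    rw [e1]
    have e2 : exp (s - 2 * ρ) ≤ exp (-s) := exp_le_exp.2 (by linarith)
    linarith

theorem half_cosh (x : ℝ) : cosh x - 1 = 2 * sinh (x / 2) ^ 2 := by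
  have := cosh_two_mul (x / 2)
  rw [show 2 * (x / 2) = x by ring] at this
  rw [this, cosh_sq]
  ring

/-- Exponential contraction. -/
theorem dist_rad_decay (R : ℝ) (p z z' : X m) (r : ℝ) (hR : dist z z' ≤ R) :
    dist (rad p r z) (rad p r z') ≤
      (exp R * exp R) * exp (r - dist p z) * dist z z' := by
  have hd : 0 ≤ dist z z' := dist_nonneg
  have hR0 : 0 ≤ R := hd.trans hR
  have hρ : |dist p z - dist p z'| ≤ dist z z' := by
    rw [dist_comm p z, dist_comm p z']
    exact abs_dist_sub_le z z' p
  have hρ' := abs_le.1 hρ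
  have hc1 : 1 ≤ exp R := one_le_exp hR0
  by_cases h1 : r ≤ 0
  · rw [rad_nonpos p z h1, rad_nonpos p z' h1, dist_self]
    positivity
  push Not at h1
  by_cases h2 : r < dist p z ∧ r < dist p z'
  · have c1 : cl p r z = r := by
      unfold cl
      rw [max_eq_left h1.le, min_eq_left h2.1.le]
    have c2 : cl p r z' = r := by
      unfold cl
      rw [max_eq_left h1.le, min_eq_left h2.2.le]
    have h := cosh_dist_rad p z z' r r
    rw [c1, c2, sub_self, cosh_zero] at h
    have q1 := cq_le_exp p r z
    have q2 := cq_le_exp p r z'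
    rw [c1] at q1
    rw [c2] at q2
    have q2' : cq p r z' ≤ exp (2 * R) * exp (r - dist p z) := by
      refine q2.trans ?_
      rw [← exp_add]
      exact exp_le_exp.2 (by linarith)
    have hq : cq p r z * cq p r z' ≤ (exp R * exp (r - dist p z)) ^ 2 := by
      calc cq p r z * cq p r z' ≤ exp (r - dist p z) * (exp (2 * R) * exp (r - dist p z)) :=
            mul_le_mul q1 q2' (cq_nonneg p r z') (exp_pos _).le
        _ = _ := by
          rw [show 2 * R = R + R by ring, exp_add]
          ring
    have h3 : cosh (dist (rad p r z) (rad p r z')) - 1 ≤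
        (exp R * exp (r - dist p z)) ^ 2 * (cosh (dist z z') - 1) := by
      have h4 : 0 ≤ cosh (dist z z') - 1 := by
        have := one_le_cosh (dist z z')
        linarith
      have h5 : cosh (dist z z') - cosh (dist p z - dist p z') ≤ cosh (dist z z') - 1 := by
        have := one_le_cosh (dist p z - dist p z')
        linarith
      have h6 := delta_nonneg p z z'
      calc cosh (dist (rad p r z) (rad p r z')) - 1 = cq p r z * cq p r z' *
            (cosh (dist z z') - cosh (dist p z - dist p z')) := by rw [h]; ring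
        _ ≤ (exp R * exp (r - dist p z)) ^ 2 * (cosh (dist z z') - 1) :=
          mul_le_mul hq h5 h6 (by positivity)
    rw [half_cosh, half_cosh] at h3
    have h7 : sinh (dist (rad p r z) (rad p r z') / 2) ≤
        exp R * exp (r - dist p z) * sinh (dist z z' / 2) := by
      have h8 : 0 ≤ exp R * exp (r - dist p z) * sinh (dist z z' / 2) :=
        mul_nonneg (by positivity) (sinh_nonneg_iff.2 (by positivity))
      refine (abs_le_of_sq_le_sq' ?_ h8).2
      rw [mul_pow]
      linarith
    have h9 : dist (rad p r z) (rad p r z') / 2 ≤ sinh (dist (rad p r z) (rad p r z') / 2) :=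
      self_le_sinh_iff.2 (by positivity)
    have h10 : sinh (dist z z' / 2) ≤ exp R * (dist z z' / 2) := by
      have h11 : sinh (dist z z' / 2) ≤ (dist z z' / 2) * exp (dist z z' / 2) :=
        sinh_le_mul_exp
      have h12 : exp (dist z z' / 2) ≤ exp R := exp_le_exp.2 (by linarith)
      nlinarith
    have h13 : 0 < exp R * exp (r - dist p z) := by positivity
    nlinarith [mul_le_mul_of_nonneg_left h10 h13.le]
  · have h3 : dist p z - R ≤ r := by
      rw [not_and_or] at h2
      rcases h2 with h | h <;> push Not at h <;> linarith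
    have h4 : 1 ≤ exp R * exp (r - dist p z) := by
      rw [← exp_add]
      exact one_le_exp (by linarith)
    have h5 := dist_rad_le p z z' r
    have h6 : 1 ≤ (exp R * exp R) * exp (r - dist p z) := by
      nlinarith
    nlinarith

/-- Reversal. -/
theorem rad_rev (x y : X m) {t : ℝ} (h0 : 0 ≤ t) (h1 : t ≤ dist x y) :
    rad y (dist x y - t) x = rad x t y := by
  apply Subtype.ext
  show radV y (dist x y - t) x = radV x t y
  have c1 : cl x t y = t := by
    unfold cl
    rw [max_eq_left h0, min_eq_left h1]
  have c2 : cl y (dist x y - t) x = dist x y - t := by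
    unfold cl
    rw [max_eq_left (by linarith), dist_comm y x, min_eq_left (by linarith)]
  rcases (dist_nonneg (x := x) (y := y)).eq_or_lt with h | h
  · have hxy : x = y := dist_eq_zero.1 h.symm
    unfold radV cq
    rw [c1, c2, dist_comm y x, ← h, sinh_zero]
    have ht : t = 0 := le_antisymm (h ▸ h1) h0
    rw [ht, hxy]
    simp
  · have hs : sinh (dist x y) ≠ 0 := (sinh_pos_iff.2 h).ne'
    unfold radV cq
    rw [c1, c2, dist_comm y x, add_comm]
    have e1 : cosh t - sinh t / sinh (dist x y) * cosh (dist x y) =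
        sinh (dist x y - t) / sinh (dist x y) := by
      rw [sinh_sub]
      field_simp
    have e2 : cosh (dist x y - t) - sinh (dist x y - t) / sinh (dist x y) * cosh (dist x y) =
        sinh t / sinh (dist x y) := by
      have h3 := cosh_sq (dist x y)
      rw [sinh_sub, cosh_sub]
      field_simp
      linear_combination (sinh t) * h3
    rw [e1, e2]

/-- Thin triangles. -/
theorem dist_rad_thin (x y z : X m) {t : ℝ} (h0 : 0 ≤ t)
    (h1 : t ≤ (dist x y + dist x z - dist y z) / 2) :
    dist (rad x t y) (rad x t z) ≤ exp (t - (dist x y + dist x z - dist y z) / 2) := by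
  set g := (dist x y + dist x z - dist y z) / 2 with hg
  have t1 := dist_triangle x y z
  have t2 := dist_triangle x z y
  rw [dist_comm z y] at t2
  have gy : g ≤ dist x y := by rw [hg]; linarith
  have gz : g ≤ dist x z := by rw [hg]; linarith
  have c1 : cl x t y = t := by
    unfold cl
    rw [max_eq_left h0, min_eq_left (by linarith)]
  have c2 : cl x t z = t := by
    unfold cl
    rw [max_eq_left h0, min_eq_left (by linarith)]
  have h := cosh_dist_rad x y z t t
  rw [c1, c2, sub_self, cosh_zero] at h
  have hΔ : cosh (dist y z) - cosh (dist x y - dist x z) =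
      2 * (sinh (dist x y - g) * sinh (dist x z - g)) := by
    have e1 : dist y z = (dist x y - g) + (dist x z - g) := by rw [hg]; ring
    have e2 : dist x y - dist x z = (dist x y - g) - (dist x z - g) := by ring
    rw [e2]
    conv_lhs => rw [e1]
    rw [cosh_add, cosh_sub (dist x y - g)]
    ring
  have key : ∀ w : X m, g ≤ dist x w → cl x t w = t →
      cq x t w * sinh (dist x w - g) ≤ sinh t * exp (-g) := by
    intro w hw hc
    have hg0 : 0 ≤ g := h0.trans h1
    have hst : 0 ≤ sinh t := sinh_nonneg_iff.2 h0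
    unfold cq
    rw [hc]
    rcases (dist_nonneg (x := x) (y := w)).eq_or_lt with h2 | h2
    · rw [← h2, sinh_zero, div_zero, zero_mul]
      positivity
    · have h3 : 0 < sinh (dist x w) := sinh_pos_iff.2 h2
      have h4 : sinh (dist x w - g) ≤ sinh (dist x w) * exp (-g) := by
        rw [sinh_eq, sinh_eq]
        have a1 : exp (dist x w - g) = exp (dist x w) * exp (-g) := by
          rw [← exp_add]
          congr 1
        have a2 : exp (-dist x w) * exp (-g) ≤ exp (-(dist x w - g)) := by
          rw [← exp_add]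
          exact exp_le_exp.2 (by linarith)
        rw [a1]
        linarith
      calc sinh t / sinh (dist x w) * sinh (dist x w - g) ≤
          sinh t / sinh (dist x w) * (sinh (dist x w) * exp (-g)) :=
            mul_le_mul_of_nonneg_left h4 (div_nonneg hst h3.le)
        _ = sinh t * exp (-g) := by
            field_simp
  have k1 := key y gy c1
  have k2 := key z gz c2
  have hst : 0 ≤ sinh t := sinh_nonneg_iff.2 h0
  have h5 : cosh (dist (rad x t y) (rad x t z)) - 1 ≤ 2 * (sinh t * exp (-g)) ^ 2 := by
    rw [h, hΔ]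
    have k3 : (cq x t y * sinh (dist x y - g)) * (cq x t z * sinh (dist x z - g)) ≤
        (sinh t * exp (-g)) * (sinh t * exp (-g)) :=
      mul_le_mul k1 k2 (mul_nonneg (cq_nonneg x t z) (sinh_nonneg_iff.2 (by linarith)))
        (by positivity)
    nlinarith
  rw [half_cosh] at h5
  have h6 : sinh (dist (rad x t y) (rad x t z) / 2) ≤ sinh t * exp (-g) := by
    refine (abs_le_of_sq_le_sq' ?_ (by positivity)).2
    linarith
  have h7 : dist (rad x t y) (rad x t z) / 2 ≤ sinh (dist (rad x t y) (rad x t z) / 2) :=
    self_le_sinh_iff.2 (by positivity)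
  have h8 : sinh t ≤ exp t / 2 := by
    rw [sinh_eq]
    have := exp_pos (-t)
    linarith
  have h9 : exp (t - g) = exp t * exp (-g) := by
    rw [← exp_add]
    congr 1
  rw [h9]
  have h10 := exp_pos (-g)
  nlinarith

end Pool.Agent.Helper24.BR
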