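import Pool.Agent.Helper24.BR.InsE
import Pool.Agent.Helper24.BR.LorR
import Pool.Agent.Helper11.BR.Defs

/-!
# Project BR: `SO_0(k + 2, 1)` is a group of rank one in the sense of the structure `R1`
-/

open Matrix Real Filter Topology

namespace Pool.Agent.Helper24.BR

variable {k : ℕ}

theorem exists_scale {v : Vec (k + 2)} (hv : Nul v) {w : Vec (k + 2)} (hw : Nul w)
    (h : B w v = 0) : ∃ s : ℝ, v = exp s • w := by
  refine ⟨log (v 0 / w 0), ?_⟩
  rw [exp_log (div_pos hv.2 hw.2)]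
  exact hv.prop hw (by rw [B_comm]; exact h)

theorem gamR_eq_zero {g : GG (k + 2)} (h : gamR g = 0) : ∃ s : ℝ, act g xinf = exp s • xinf := by
  refine exists_scale (nul_act g) nul_xinf ?_
  unfold gamR at h
  linarith

theorem sq_le_cosh (x : ℝ) : x ^ 2 ≤ 2 * (cosh x - 1) := by
  rw [half_cosh]
  have h1 : |x / 2| ≤ |sinh (x / 2)| := by
    rcases le_total 0 x with h | h
    · have h2 : x / 2 ≤ sinh (x / 2) := self_le_sinh_iff.2 (by linarith)
      rw [abs_of_nonneg (by linarith), abs_of_nonneg (by linarith)]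
      exact h2
    · have h2 : sinh (x / 2) ≤ x / 2 := sinh_le_self_iff.2 (by linarith)
      rw [abs_of_nonpos (by linarith), abs_of_nonpos (by linarith)]
      linarith
  have h3 := sq_le_sq.2 h1
  linarith

theorem end_scaleR (g : GG (k + 2)) (hg : gamR g = 0) : ∃ s : ℝ,
    (∀ h : GG (k + 2), gamR (h * g) = exp s * gamR h) ∧
    (∀ h : GG (k + 2), nmR (h * g) = exp s * nmR h) ∧
    Tendsto (fun T : ℝ => rhoR (dg (-T) * g * dg (T - s))) atTop (𝓝 0) := by
  obtain ⟨s, hs⟩ := gamR_eq_zero hg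
  refine ⟨s, ?_, ?_, ?_⟩
  · intro h
    unfold gamR
    rw [act_mul, hs, act_smul, B_smul_right]
    ring
  · intro h
    unfold nmR
    rw [act_mul, hs, act_smul]
    rfl
  · set c : ℝ := -B xzero (act g xzero) / 4 with hc
    have hx : B (xinf : Vec (k + 2)) (act g xzero) = -2 * exp (-s) := by
      have h1 : B (act g xinf) (act g xzero) = -2 := by rw [B_act, B_xinf_xzero]
      rw [hs, B_smul_left] at h1
      have h2 : exp (-s) * (exp s * B xinf (act g xzero)) = exp (-s) * -2 := by rw [h1]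
      rw [← mul_assoc, ← exp_add, neg_add_cancel, exp_zero, one_mul] at h2
      linarith
    have key : ∀ T : ℝ, cosh (rhoR (dg (-T) * g * dg (T - s))) = 1 + exp (s - 2 * T) * c := by
      intro T
      have h1 : rhoR (dg (-T) * g * dg (T - s)) =
          dist (vert T : X (k + 2)) (g • vert (T - s)) := by
        unfold rhoR vert
        rw [← dist_smul (dg T : GG (k + 2)) (oo : X (k + 2)), ← mul_smul, ← mul_smul]
        congr 2
        rw [mul_assoc (dg (-T)), ← mul_assoc (dg T), ← dg_add, add_neg_cancel, dg_zero, one_mul]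
      rw [h1, cosh_dist, coe_smul, coe_vert, coe_vert]
      simp only [act_smul, act_add, B_smul_left, B_smul_right, B_add_left, B_add_right]
      rw [hx, hs, B_smul_right, B_smul_right, B_xinf_xinf, B_xzero_xinf]
      have hB : B (xzero : Vec (k + 2)) (act g xzero) = -4 * c := by rw [hc]; ring
      rw [hB]
      have e1 : exp T * exp (-(T - s)) * exp (-s) = 1 := by
        rw [← exp_add, ← exp_add]
        ring_nf
        exact exp_zero
      have e2 : exp (-T) * exp (T - s) * exp s = 1 := by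
        rw [← exp_add, ← exp_add]
        ring_nf
        exact exp_zero
      have e3 : exp (-T) * exp (-(T - s)) = exp (s - 2 * T) := by
        rw [← exp_add]
        congr 1
        ring
      rw [← e3]
      linear_combination (1 / 2 : ℝ) * e1 + (1 / 2 : ℝ) * e2
    have h0 : Tendsto (fun T : ℝ => √(2 * (exp (s - 2 * T) * c))) atTop (𝓝 0) := by
      have h1 : Tendsto (fun T : ℝ => exp (s - 2 * T)) atTop (𝓝 0) := by
        refine tendsto_exp_atBot.comp ?_
        refine tendsto_atBot_add_const_left _ s ?_ |>.congr fun T => (sub_eq_add_neg _ _).symm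
        exact tendsto_neg_atTop_atBot.comp (tendsto_id.const_mul_atTop (by norm_num))
      have h2 := (h1.mul_const c).const_mul 2
      rw [zero_mul, mul_zero] at h2
      have h3 := (continuous_sqrt.tendsto 0).comp h2
      rw [sqrt_zero] at h3
      exact h3
    refine squeeze_zero (fun _ => dist_nonneg) (fun T => ?_) h0
    have h1 := sq_le_cosh (rhoR (dg (-T) * g * dg (T - s)))
    rw [key T] at h1
    apply le_sqrt_of_sq_le
    linarith

theorem two_endsR (g : GG (k + 2)) (h1 : gamR g = 0) (h2 : gamR (flip⁻¹ * g * flip) = 0) :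
    ∃ s : ℝ, rhoR (g * dg (-s)) = 0 := by
  obtain ⟨s, hs⟩ := gamR_eq_zero h1
  obtain ⟨t, ht⟩ : ∃ t : ℝ, act g xzero = exp t • xzero := by
    refine exists_scale (nul_xzero.act g) nul_xzero ?_
    rw [gamR_both] at h2
    linarith
  have hst : exp s * exp t = 1 := by
    have h3 : B (act g xinf) (act g (xzero : Vec (k + 2))) = -2 := by rw [B_act, B_xinf_xzero]
    rw [hs, ht, B_smul_left, B_smul_right, B_xinf_xzero] at h3
    linarith
  refine ⟨s, ?_⟩
  have h4 : (g * dg (-s)) • (oo : X (k + 2)) = oo := by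
    apply Subtype.ext
    rw [coe_smul]
    show act (g * dg (-s)) e0 = e0
    rw [e0_half, act_smul, act_add, act_mul, act_mul, act_dg_xinf, act_dg_xzero, act_smul,
      act_smul, hs, ht, smul_smul, smul_smul, neg_neg, ← exp_add, neg_add_cancel, exp_zero, hst,
      one_smul, one_smul]
  unfold rhoR
  rw [h4, dist_self]

theorem exists_UR : ∃ u ∈ UU k, gamR (flip⁻¹ * u * flip) ≠ 0 := by
  have h1 : B (xinf : Vec (k + 2)) e2 = 0 := by
    unfold xinf
    rw [B_add_left, B_e0_e2, B_e1_e2, add_zero]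
  have h2 : B (xzero : Vec (k + 2)) e2 = 0 := by
    unfold xzero
    rw [B_sub_left, B_e0_e2, B_e1_e2, sub_zero]
  refine ⟨eich xinf e2, ⟨e2, h1, rfl⟩, ?_⟩
  rw [gamR_eich h1 h2, B_e2_e2]
  norm_num

theorem polarR (g : GG (k + 2)) :
    ∃ n : GG (k + 2), rhoR n = 0 ∧ rhoR (g⁻¹ * (n * dg (rhoR g))) = 0 := by
  obtain ⟨n, hn, hn'⟩ := exists_frame (oo : X (k + 2)) (g • oo)
  refine ⟨n, ?_, ?_⟩
  · unfold rhoR
    rw [hn, dist_self]
  · rw [gam_eq] at hn'
    have h1 : rhoR g = dist (oo : X (k + 2)) (g • oo) := rfl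
    rw [h1]
    unfold rhoR
    rw [mul_smul, hn', inv_smul_smul, dist_self]

theorem cosh_polar (n : GG (k + 2)) (hn : rhoR n = 0) (a b : ℝ) :
    cosh (rhoR (dg (-a) * n * dg b)) = cosh (a - b) + sinh a * sinh b * (1 - B e1 (act n e1)) := by
  have h0 : act n (e0 : Vec (k + 2)) = e0 := by
    have h1 : (oo : X (k + 2)) = n • oo := dist_eq_zero.1 hn
    exact (congrArg Subtype.val h1).symm
  have h1 : rhoR (dg (-a) * n * dg b) = dist (vert a : X (k + 2)) (n • vert b) := by
    unfold rhoR vert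
    rw [← dist_smul (dg a : GG (k + 2)) (oo : X (k + 2)), ← mul_smul, ← mul_smul]
    congr 2
    rw [mul_assoc (dg (-a)), ← mul_assoc (dg a), ← dg_add, add_neg_cancel, dg_zero, one_mul]
  have h2 : B (e0 : Vec (k + 2)) (act n e1) = 0 := by
    have h3 : B (act n e0) (act n (e1 : Vec (k + 2))) = 0 := by rw [B_act, B_e0_e1]
    rwa [h0] at h3
  rw [h1, cosh_dist, coe_smul, coe_vert', coe_vert']
  simp only [act_smul, act_add, B_smul_left, B_smul_right, B_add_left, B_add_right]
  rw [h0, h2, B_e0_self, B_comm e1 e0, B_e0_e1, cosh_sub]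
  ring

theorem radR (n : GG (k + 2)) (hn : rhoR n = 0) (j r r' : ℝ) (hj : 0 ≤ j) (hr : j ≤ r)
    (hr' : j ≤ r') :
    sinh (rhoR (dg (-j) * n * dg j)) ^ 2 * (sinh r * sinh r') ≤
      sinh j ^ 2 * sinh (rhoR (dg (-r) * n * dg r')) ^ 2 := by
  set y : ℝ := 1 - B e1 (act n e1) with hy
  have h0 : act n (e0 : Vec (k + 2)) = e0 := by
    have h1 : (oo : X (k + 2)) = n • oo := dist_eq_zero.1 hn
    exact (congrArg Subtype.val h1).symm
  have hy0 : 0 ≤ y := by
    have o1 : B (e0 : Vec (k + 2)) e1 = 0 := B_e0_e1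
    have o2 : B (e0 : Vec (k + 2)) (act n e1) = 0 := by
      have h3 : B (act n e0) (act n (e1 : Vec (k + 2))) = 0 := by rw [B_act, B_e0_e1]
      rwa [h0] at h3
    have h1 := cs_orth B_e0_self o1 o2
    rw [B_act, B_e1_e1, one_mul] at h1
    have h2 := abs_le_of_sq_le_sq' (h1.trans_eq (one_pow 2).symm) zero_le_one
    linarith [h2.2]
  rw [sinh_sq, sinh_sq (rhoR (dg (-r) * n * dg r')), cosh_polar n hn, cosh_polar n hn, ← hy,
    sub_self, cosh_zero]
  have s0 : 0 ≤ sinh j := sinh_nonneg_iff.2 hj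
  have s1 : sinh j ≤ sinh r := sinh_le_sinh.2 hr
  have s2 : sinh j ≤ sinh r' := sinh_le_sinh.2 hr'
  set P := sinh r * sinh r' with hP
  have hPJ : sinh j * sinh j ≤ P := mul_le_mul s1 s2 s0 (s0.trans s1)
  have hP0 : 0 ≤ P := (mul_nonneg s0 s0).trans hPJ
  have h1 : 1 ≤ cosh (r - r') := one_le_cosh _
  have h2 : (1 + P * y) ^ 2 ≤ (cosh (r - r') + P * y) ^ 2 := by
    have : 0 ≤ P * y := mul_nonneg hP0 hy0
    exact pow_le_pow_left₀ (by linarith) (by linarith) 2
  have h3 : ((1 + sinh j * sinh j * y) ^ 2 - 1) * P ≤ sinh j ^ 2 * ((1 + P * y) ^ 2 - 1) := by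
    have e1 : ((1 + sinh j * sinh j * y) ^ 2 - 1) * P =
        (sinh j ^ 2 * y * P) * (2 + sinh j * sinh j * y) := by ring
    have e2 : sinh j ^ 2 * ((1 + P * y) ^ 2 - 1) = (sinh j ^ 2 * y * P) * (2 + P * y) := by ring
    rw [e1, e2]
    refine mul_le_mul_of_nonneg_left ?_ (by positivity)
    have := mul_le_mul_of_nonneg_right hPJ hy0
    linarith
  calc ((1 + sinh j * sinh j * y) ^ 2 - 1) * P ≤ sinh j ^ 2 * ((1 + P * y) ^ 2 - 1) := h3
    _ ≤ _ := mul_le_mul_of_nonneg_left (by linarith) (sq_nonneg _)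

/-- The rank one data of `SO_0(k + 2, 1)`. -/
noncomputable def r1 (k : ℕ) : Pool.Agent.Helper11.BR.R1 (GG (k + 2)) where
  rho := rhoR
  rho_one := rhoR_one
  rho_inv := rhoR_inv
  rho_mul := rhoR_mul
  rho_cont := rhoR_cont
  proper := isCompact_disp
  dg := dg
  dg_add := dg_add
  dg_cont := dg_cont
  rho_dg := rhoR_dg
  flip := flip
  rho_flip := rhoR_flip
  flip_dg := flip_dg
  gam := gamR
  gam_cont := gamR_cont
  gam_nonneg := gamR_nonneg
  gam_inv := gamR_inv
  gam_dg := gamR_dg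
  gam_one := gamR_one
  gam_flip := gamR_flip
  gam_flip_flip := gamR_flip_flip
  ptol := gamR_ptol
  nm := nmR
  nm_cont := nmR_cont
  nm_one := nmR_one
  nm_dg := nmR_dg
  nm_mul := nmR_mul
  nm_le := nmR_le
  gam_le_mul := gamR_le_mul
  rho_le := rhoR_le
  U := UU k
  U_dg := U_dg
  gam_U := gamR_U
  nm_U := nmR_U
  nu := nuR
  nu_mem := nuR_mem
  nu_end := nuR_end
  nu_cont := nuR_cont
  end_scale := end_scaleR
  two_ends := two_endsR
  exists_U := exists_UR
  E := ER
  E_cont := ER_cont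
  E_one := ER_one
  rho_le_E := rhoR_le_ER
  cE := (k : ℝ) + 6
  one_le_cE := by
    have : (0 : ℝ) ≤ k := Nat.cast_nonneg k
    linarith
  E_conj := ER_conj
  E_inv := ER_inv
  E_dg := ER_dg
  E_sinh := ER_sinh
  E_sq := ER_le_sq
  E_pair := ER_pair
  polar := polarR
  rad := radR

end Pool.Agent.Helper24.BR
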