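import Mathlib

/-!
# Project BR: the Lorentz form and real hyperbolic space
-/

open Matrix Real

namespace Pool.Agent.Helper24.BR

/-- Vectors of the Lorentz space. -/
abbrev Vec (m : ℕ) : Type := Fin (m + 1) → ℝ

variable {m : ℕ}

/-- The Lorentz form `-x₀ y₀ + x₁ y₁ + ... + x_m y_m`. -/
def B (x y : Vec m) : ℝ := x ⬝ᵥ y - 2 * (x 0 * y 0)

theorem B_eq (x y : Vec m) : B x y = -(x 0 * y 0) + ∑ i : Fin m, x i.succ * y i.succ := by
  unfold B dotProduct
  rw [Fin.sum_univ_succ]
  ring

theorem B_comm (x y : Vec m) : B x y = B y x := by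
  unfold B
  rw [dotProduct_comm, mul_comm (x 0)]

theorem B_add_left (x y z : Vec m) : B (x + y) z = B x z + B y z := by
  unfold B
  rw [add_dotProduct, Pi.add_apply]
  ring

theorem B_add_right (x y z : Vec m) : B x (y + z) = B x y + B x z := by
  rw [B_comm, B_add_left, B_comm y, B_comm z]

theorem B_smul_left (c : ℝ) (x y : Vec m) : B (c • x) y = c * B x y := by
  unfold B
  rw [smul_dotProduct, Pi.smul_apply, smul_eq_mul, smul_eq_mul]
  ring

theorem B_smul_right (c : ℝ) (x y : Vec m) : B x (c • y) = c * B x y := by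
  rw [B_comm, B_smul_left, B_comm]

theorem B_neg_left (x y : Vec m) : B (-x) y = -B x y := by
  have := B_smul_left (-1) x y
  rw [neg_one_smul] at this
  rw [this]
  ring

theorem B_neg_right (x y : Vec m) : B x (-y) = -B x y := by
  rw [B_comm, B_neg_left, B_comm]

theorem B_sub_left (x y z : Vec m) : B (x - y) z = B x z - B y z := by
  rw [sub_eq_add_neg, B_add_left, B_neg_left]
  ring

theorem B_sub_right (x y z : Vec m) : B x (y - z) = B x y - B x z := by
  rw [B_comm, B_sub_left, B_comm y, B_comm z]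

theorem B_zero_left (y : Vec m) : B 0 y = 0 := by
  unfold B
  simp

theorem B_zero_right (y : Vec m) : B y 0 = 0 := by
  rw [B_comm, B_zero_left]

/-- The space part. -/
theorem cs (x y : Vec m) : (∑ i : Fin m, x i.succ * y i.succ) ^ 2 ≤
    (∑ i : Fin m, x i.succ ^ 2) * ∑ i : Fin m, y i.succ ^ 2 :=
  Finset.sum_mul_sq_le_sq_mul_sq _ _ _

theorem B_self (x : Vec m) : B x x = -(x 0) ^ 2 + ∑ i : Fin m, x i.succ ^ 2 := by
  rw [B_eq]
  congr 1
  · ring
  · exact Finset.sum_congr rfl fun i _ => by ring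

/-- Vectors orthogonal to a unit timelike vector are spacelike. -/
theorem le_of_orth {x u : Vec m} (hx : B x x = -1) (h : B x u = 0) :
    ∑ i : Fin m, u i.succ ^ 2 ≤ (x 0) ^ 2 * B u u := by
  have h1 := cs x u
  rw [B_self] at hx ⊢
  rw [B_eq] at h
  set P := ∑ i : Fin m, x i.succ ^ 2
  set Q := ∑ i : Fin m, u i.succ ^ 2
  set R := ∑ i : Fin m, x i.succ * u i.succ
  have h2 : R = x 0 * u 0 := by linarith
  have h3 : P = x 0 ^ 2 - 1 := by linarith
  rw [h2, h3] at h1
  nlinarith

theorem B_nonneg_of_orth {x u : Vec m} (hx : B x x = -1) (h : B x u = 0) : 0 ≤ B u u := by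
  have h1 := le_of_orth hx h
  have h2 : 0 ≤ ∑ i : Fin m, u i.succ ^ 2 := Finset.sum_nonneg fun i _ => sq_nonneg _
  have h3 : 0 < x 0 ^ 2 := by
    rw [B_self] at hx
    have : 0 ≤ ∑ i : Fin m, x i.succ ^ 2 := Finset.sum_nonneg fun i _ => sq_nonneg _
    linarith
  by_contra hc
  nlinarith

theorem eq_zero_of_orth {x u : Vec m} (hx : B x x = -1) (h : B x u = 0) (h0 : B u u = 0) :
    u = 0 := by
  have h1 := le_of_orth hx h
  rw [h0, mul_zero] at h1
  have h2 : ∀ i : Fin m, u i.succ = 0 := by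
    have h3 : ∑ i : Fin m, u i.succ ^ 2 = 0 :=
      le_antisymm h1 (Finset.sum_nonneg fun i _ => sq_nonneg _)
    intro i
    have h4 := (Finset.sum_eq_zero_iff_of_nonneg (fun i _ => sq_nonneg _)).1 h3 i
      (Finset.mem_univ i)
    exact pow_eq_zero_iff (two_ne_zero) |>.1 h4
  have h5 : u 0 = 0 := by
    rw [B_self] at h0
    have : ∑ i : Fin m, u i.succ ^ 2 = 0 := Finset.sum_eq_zero fun i _ => by rw [h2]; ring
    rw [this] at h0
    nlinarith
  funext i
  refine Fin.cases ?_ (fun j => ?_) i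
  · exact h5
  · exact h2 j

/-- Cauchy-Schwarz on the orthogonal complement of a unit timelike vector. -/
theorem cs_orth {x u v : Vec m} (hx : B x x = -1) (hu : B x u = 0) (hv : B x v = 0) :
    (B u v) ^ 2 ≤ B u u * B v v := by
  have hq : ∀ s t : ℝ, 0 ≤ s ^ 2 * B u u + 2 * (s * t) * B u v + t ^ 2 * B v v := by
    intro s t
    have h1 : B x (s • u + t • v) = 0 := by
      rw [B_add_right, B_smul_right, B_smul_right, hu, hv]
      ring
    have h2 := B_nonneg_of_orth hx h1
    have h3 : B (s • u + t • v) (s • u + t • v) =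
        s ^ 2 * B u u + 2 * (s * t) * B u v + t ^ 2 * B v v := by
      rw [B_add_right, B_add_left, B_add_left, B_smul_right, B_smul_right, B_smul_right,
        B_smul_right, B_smul_left, B_smul_left, B_smul_left, B_smul_left, B_comm v u]
      ring
    rwa [h3] at h2
  have hvv := B_nonneg_of_orth hx hv
  have huu := B_nonneg_of_orth hx hu
  rcases hvv.eq_or_lt with h0 | hpos
  · have hv0 : v = 0 := eq_zero_of_orth hx hv h0.symm
    rw [hv0, B_zero_right, B_zero_right]
    simp
  · have h4 := hq (B v v) (-B u v)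
    have h5 : 0 ≤ B v v * (B u u * B v v - B u v ^ 2) := by
      calc 0 ≤ _ := h4
        _ = _ := by ring
    have h6 := nonneg_of_mul_nonneg_right h5 hpos
    linarith

/-- The hyperboloid. -/
def X (m : ℕ) : Type := {x : Vec m // B x x = -1 ∧ 0 < x 0}

theorem X.self (x : X m) : B x.1 x.1 = -1 := x.2.1

theorem X.pos (x : X m) : 0 < x.1 0 := x.2.2

/-- `- B x y` is the hyperbolic cosine of the distance. -/
theorem X.B_neg (x y : X m) : B x.1 y.1 < 0 := by
  have h1 := cs x.1 y.1
  have hx := x.self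
  have hy := y.self
  have px := x.pos
  have py := y.pos
  rw [B_self] at hx hy
  rw [B_eq]
  set P := ∑ i : Fin m, x.1 i.succ ^ 2
  set Q := ∑ i : Fin m, y.1 i.succ ^ 2
  set R := ∑ i : Fin m, x.1 i.succ * y.1 i.succ
  have h3 : P = x.1 0 ^ 2 - 1 := by linarith
  have h4 : Q = y.1 0 ^ 2 - 1 := by linarith
  have h5 : 0 ≤ P := Finset.sum_nonneg fun i _ => sq_nonneg _
  have h6 : 0 ≤ Q := Finset.sum_nonneg fun i _ => sq_nonneg _
  rw [h3, h4] at h1
  have h7 : R ^ 2 < (x.1 0 * y.1 0) ^ 2 := by nlinarith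
  have h8 : R < x.1 0 * y.1 0 := lt_of_pow_lt_pow_left₀ 2 (by positivity) h7
  linarith

theorem X.one_le (x y : X m) : 1 ≤ -B x.1 y.1 := by
  have h1 : B x.1 (y.1 + B x.1 y.1 • x.1) = 0 := by
    rw [B_add_right, B_smul_right, x.self]
    ring
  have h2 := B_nonneg_of_orth x.self h1
  have h3 : B (y.1 + B x.1 y.1 • x.1) (y.1 + B x.1 y.1 • x.1) = B x.1 y.1 ^ 2 - 1 := by
    rw [B_add_right, B_add_left, B_add_left, B_smul_right, B_smul_right, B_smul_left, B_smul_left,
      x.self, y.self, B_comm y.1 x.1]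
    ring
  rw [h3] at h2
  have h4 := x.B_neg y
  nlinarith

theorem X.eq_of (x y : X m) (h : -B x.1 y.1 = 1) : x = y := by
  have h1 : B x.1 (y.1 + B x.1 y.1 • x.1) = 0 := by
    rw [B_add_right, B_smul_right, x.self]
    ring
  have h3 : B (y.1 + B x.1 y.1 • x.1) (y.1 + B x.1 y.1 • x.1) = 0 := by
    rw [B_add_right, B_add_left, B_add_left, B_smul_right, B_smul_right, B_smul_left, B_smul_left,
      x.self, y.self, B_comm y.1 x.1]
    have : B x.1 y.1 = -1 := by linarith
    rw [this]
    ring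
  have h4 := eq_zero_of_orth x.self h1 h3
  have h5 : B x.1 y.1 = -1 := by linarith
  rw [h5, neg_one_smul] at h4
  apply Subtype.ext
  have := sub_eq_zero.1 (by rw [sub_eq_add_neg]; exact h4 : y.1 - x.1 = 0)
  exact this.symm

noncomputable instance : MetricSpace (X m) where
  dist x y := arcosh (-B x.1 y.1)
  dist_self x := by
    rw [x.self, neg_neg]
    exact arcosh_zero
  dist_comm x y := by rw [B_comm]
  dist_triangle x y z := by
    have h1 := x.one_le y
    have h2 := y.one_le z
    have h3 := x.one_le z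
    have h4 : -B x.1 z.1 ≤ cosh (arcosh (-B x.1 y.1) + arcosh (-B y.1 z.1)) := by
      rw [cosh_add, cosh_arcosh h1, cosh_arcosh h2, sinh_arcosh h1, sinh_arcosh h2]
      set p := B x.1 y.1 with hp
      set q := B y.1 z.1 with hq
      have e1 : B y.1 (x.1 + p • y.1) = 0 := by
        rw [B_add_right, B_smul_right, y.self, B_comm, hp]
        ring
      have e2 : B y.1 (z.1 + q • y.1) = 0 := by
        rw [B_add_right, B_smul_right, y.self, hq]
        ring
      have e3 := cs_orth y.self e1 e2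
      have e4 : B (x.1 + p • y.1) (x.1 + p • y.1) = p ^ 2 - 1 := by
        rw [B_add_right, B_add_left, B_add_left, B_smul_right, B_smul_right, B_smul_left,
          B_smul_left, x.self, y.self, B_comm y.1 x.1, ← hp]
        ring
      have e5 : B (z.1 + q • y.1) (z.1 + q • y.1) = q ^ 2 - 1 := by
        rw [B_add_right, B_add_left, B_add_left, B_smul_right, B_smul_right, B_smul_left,
          B_smul_left, z.self, y.self, B_comm z.1 y.1, ← hq]
        ring
      have e6 : B (x.1 + p • y.1) (z.1 + q • y.1) = B x.1 z.1 + p * q := by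
        rw [B_add_right, B_add_left, B_add_left, B_smul_right, B_smul_right, B_smul_left,
          B_smul_left, y.self, ← hq, ← hp]
        ring
      rw [e4, e5, e6] at e3
      have e7 : 0 ≤ p ^ 2 - 1 := by nlinarith
      have e8 : 0 ≤ q ^ 2 - 1 := by nlinarith
      have e9 : |B x.1 z.1 + p * q| ≤ √(p ^ 2 - 1) * √(q ^ 2 - 1) := by
        rw [← sqrt_mul e7]
        exact abs_le_sqrt e3
      have e10 := neg_abs_le (B x.1 z.1 + p * q)
      rw [neg_sq, neg_sq]
      nlinarith
    have h5 : 0 ≤ arcosh (-B x.1 y.1) + arcosh (-B y.1 z.1) :=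
      add_nonneg (arcosh_nonneg h1) (arcosh_nonneg h2)
    calc arcosh (-B x.1 z.1) ≤ arcosh (cosh (arcosh (-B x.1 y.1) + arcosh (-B y.1 z.1))) :=
          (arcosh_le_arcosh (by linarith) (cosh_pos _)).2 h4
      _ = _ := arcosh_cosh h5
  eq_of_dist_eq_zero {x y} h := X.eq_of x y ((arcosh_eq_zero_iff (x.one_le y)).1 h)

theorem dist_def (x y : X m) : dist x y = arcosh (-B x.1 y.1) := rfl

theorem cosh_dist (x y : X m) : cosh (dist x y) = -B x.1 y.1 := by
  rw [dist_def, cosh_arcosh (x.one_le y)]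

end Pool.Agent.Helper24.BR
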