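import Pool.Agent.Helper24.BR.LorG

/-!
# Project BR: special elements of `SO_0(m, 1)`: reflections, transvections, boosts
-/

open Matrix Real

namespace Pool.Agent.Helper24.BR

variable {m : ℕ}

/-- Determinant of a square. -/
theorem det_of_sq {M N : Mat m} (h : M = N * N) (hN : N.det ^ 2 = 1) : M.det = 1 := by
  rw [h, det_mul, ← sq, hN]

/-- The diagonal matrix of the form. -/
def Jm : Mat m := diagonal fun i => if i = 0 then -1 else 1

theorem dot_Jm (x y : Vec m) : x ⬝ᵥ ((Jm : Mat m) *ᵥ y) = B x y := by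
  rw [B_eq]
  unfold dotProduct Jm
  rw [Fin.sum_univ_succ]
  simp [mulVec_diagonal, Fin.succ_ne_zero]

theorem Jm_det : (Jm : Mat m).det ^ 2 = 1 := by
  unfold Jm
  rw [det_diagonal, Fin.prod_univ_succ]
  simp [Fin.succ_ne_zero]

theorem Pres.det_sq {M : Mat m} (h : Pres M) : M.det ^ 2 = 1 := by
  have h1 : Mᵀ * Jm * M = Jm := by
    apply Matrix.ext_of_mulVec_single
    intro j
    apply funext
    intro i
    have h2 := h (Pi.single i 1) (Pi.single j 1)
    rw [← dot_Jm, ← dot_Jm] at h2
    rw [← mulVec_mulVec, ← mulVec_mulVec]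
    have h3 : ∀ v : Vec m, Pi.single i (1 : ℝ) ⬝ᵥ v = v i := fun v => by
      rw [single_dotProduct, one_mul]
    rw [h3] at h2
    rw [← h2, ← h3 (Mᵀ *ᵥ _), dotProduct_mulVec, vecMul_transpose]
  have h4 := congrArg det h1
  rw [det_mul, det_mul, det_transpose] at h4
  have h5 : (Jm : Mat m).det ≠ 0 := by
    intro h0
    have := Jm_det (m := m)
    rw [h0] at this
    norm_num at this
  have h6 : M.det ^ 2 * (Jm : Mat m).det = 1 * (Jm : Mat m).det := by
    rw [one_mul]
    calc M.det ^ 2 * (Jm : Mat m).det = M.det * (Jm : Mat m).det * M.det := by ring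
      _ = _ := h4
  exact mul_right_cancel₀ h5 h6

/-! ### Reflections -/

/-- The reflection in the vector `w`. -/
noncomputable def rfl0 (w : Vec m) : Mat m := rk1 ((-2 / B w w) • w) w

theorem rfl0_mulVec (w x : Vec m) : rfl0 w *ᵥ x = x - (2 * B w x / B w w) • w := by
  unfold rfl0
  rw [rk1_mulVec, smul_smul, sub_eq_add_neg, ← neg_smul]
  congr 2
  ring

theorem rfl0_det {w : Vec m} (hw : B w w ≠ 0) : (rfl0 w).det = -1 := by
  unfold rfl0
  rw [rk1_det, B_smul_right]
  field_simp
  ring

theorem rfl0_pres {w : Vec m} (hw : B w w ≠ 0) : Pres (rfl0 w) := by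
  intro x y
  rw [rfl0_mulVec, rfl0_mulVec, B_sub_left, B_sub_right, B_sub_right, B_smul_left, B_smul_left,
    B_smul_right, B_smul_right, B_comm x w]
  field_simp
  ring

/-- A vector orthogonal to `w` is fixed. -/
theorem rfl0_fix {w x : Vec m} (h : B w x = 0) : rfl0 w *ᵥ x = x := by
  rw [rfl0_mulVec, h]
  simp

/-- The reflection in `x - y` exchanges `x` and `y` if they have the same square. -/
theorem rfl0_swap {x y : Vec m} (h : B x x = B y y) (hw : B (x - y) (x - y) ≠ 0) :
    rfl0 (x - y) *ᵥ x = y := by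
  rw [rfl0_mulVec]
  have h1 : 2 * B (x - y) x = B (x - y) (x - y) := by
    rw [B_sub_left, B_sub_left, B_sub_right, B_sub_right, B_comm y x, h]
    ring
  rw [h1, div_self hw, one_smul]
  exact sub_sub_cancel x y

/-! ### Eichler transformations -/

/-- The matrix of `x ↦ x + B(x, v) u - B(x, u) v - B(u, u)/2 B(x, v) v`. -/
noncomputable def eiM (v u : Vec m) : Mat m :=
  1 + vecMulVec u (Jv v) - vecMulVec v (Jv u) - (B u u / 2) • vecMulVec v (Jv v)

theorem eiM_mulVec (v u x : Vec m) : eiM v u *ᵥ x =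
    x + B v x • u - B u x • v - (B u u / 2 * B v x) • v := by
  unfold eiM
  rw [sub_mulVec, sub_mulVec, add_mulVec, one_mulVec, smul_mulVec, vecMulVec_mulVec,
    vecMulVec_mulVec, vecMulVec_mulVec, Jv_dot, Jv_dot]
  funext i
  simp
  ring

theorem eiM_pres {v u : Vec m} (hv : B v v = 0) (hu : B v u = 0) : Pres (eiM v u) := by
  intro x y
  rw [eiM_mulVec, eiM_mulVec]
  simp only [B_sub_left, B_sub_right, B_add_left, B_add_right, B_smul_left, B_smul_right]
  rw [B_comm x u, B_comm x v, B_comm u v, hv, hu]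
  ring

theorem eiM_mul {v u u' : Vec m} (hv : B v v = 0) (hu : B v u = 0) (hu' : B v u' = 0) :
    eiM v u * eiM v u' = eiM v (u + u') := by
  apply Matrix.ext_of_mulVec_single
  intro i
  generalize (Pi.single i 1 : Vec m) = x
  rw [← mulVec_mulVec, eiM_mulVec, eiM_mulVec, eiM_mulVec]
  simp only [B_sub_left, B_sub_right, B_add_left, B_add_right, B_smul_left, B_smul_right]
  rw [B_comm u v, hv, hu, hu', B_comm u' u]
  funext j
  simp
  ring

theorem eiM_zero (v : Vec m) : eiM v 0 = 1 := by
  apply Matrix.ext_of_mulVec_single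
  intro i
  rw [eiM_mulVec, one_mulVec, B_zero_left, B_zero_left]
  simp

theorem eiM_det {v u : Vec m} (hv : B v v = 0) (hu : B v u = 0) : (eiM v u).det = 1 := by
  have hu2 : B v ((1 / 2 : ℝ) • u) = 0 := by rw [B_smul_right, hu, mul_zero]
  refine det_of_sq (N := eiM v ((1 / 2 : ℝ) • u)) ?_ (eiM_pres hv hu2).det_sq
  rw [eiM_mul hv hu2 hu2, ← add_smul]
  norm_num

/-- A vector orthogonal to a nonzero null vector is not timelike. -/
theorem null_orth {v u : Vec m} (hv : B v v = 0) (hv0 : v 0 ≠ 0) (hu : B v u = 0) : 0 ≤ B u u := by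
  have h1 := cs v u
  rw [B_self] at hv ⊢
  rw [B_eq] at hu
  set P := ∑ i : Fin m, v i.succ ^ 2
  set Q := ∑ i : Fin m, u i.succ ^ 2
  set R := ∑ i : Fin m, v i.succ * u i.succ
  have h2 : R = v 0 * u 0 := by linarith
  have h3 : P = v 0 ^ 2 := by linarith
  rw [h2, h3] at h1
  have h4 : 0 < v 0 ^ 2 := by positivity
  nlinarith

theorem eiM_pos {v u : Vec m} (hv : B v v = 0) (hu : B v u = 0) : 0 < (eiM v u) 0 0 := by
  have h1 : (eiM v u) 0 0 = 1 + B u u / 2 * (v 0) ^ 2 := by
    have h2 : (eiM v u) 0 0 = (eiM v u *ᵥ (e0 : Vec m)) 0 := by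
      unfold e0
      simp
    rw [h2, eiM_mulVec, B_e0_right, B_e0_right]
    have h3 : (e0 : Vec m) 0 = 1 := by
      unfold e0
      exact Pi.single_eq_same _ _
    simp [h3]
    ring
  rw [h1]
  by_cases hv0 : v 0 = 0
  · rw [hv0]
    norm_num
  · have := null_orth hv hv0 hu
    positivity

open Classical in
/-- The Eichler transformation (identity if the data are not admissible). -/
noncomputable def eich (v u : Vec m) : GG m :=
  if h : B v v = 0 ∧ B v u = 0 then mkG (eiM v u) (eiM_det h.1 h.2) (eiM_pres h.1 h.2)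
    (eiM_pos h.1 h.2) else 1

theorem act_eich {v u : Vec m} (hv : B v v = 0) (hu : B v u = 0) (x : Vec m) :
    act (eich v u) x = x + B v x • u - B u x • v - (B u u / 2 * B v x) • v := by
  unfold eich
  rw [dif_pos ⟨hv, hu⟩, act_mkG, eiM_mulVec]

theorem eich_conj (g : GG m) (v u : Vec m) : eich (act g v) (act g u) = g * eich v u * g⁻¹ := by
  by_cases h : B v v = 0 ∧ B v u = 0
  · have h' : B (act g v) (act g v) = 0 ∧ B (act g v) (act g u) = 0 := by
      rw [B_act, B_act]
      exact h
    apply ext_act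
    intro x
    rw [act_eich h'.1 h'.2, act_mul, act_mul, act_eich h.1 h.2]
    simp only [act_add, act_sub, act_smul, act_act_inv]
    have e1 : ∀ w : Vec m, B w (act g⁻¹ x) = B (act g w) x := by
      intro w
      rw [← B_act g, act_act_inv]
    rw [e1, e1, B_act]
  · have h' : ¬ (B (act g v) (act g v) = 0 ∧ B (act g v) (act g u) = 0) := by
      rw [B_act, B_act]
      exact h
    unfold eich
    rw [dif_neg h, dif_neg h']
    group

/-- The displacement of a point under an Eichler transformation. -/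
theorem cosh_disp_eich {v u : Vec m} (hv : B v v = 0) (hu : B v u = 0) (p : X m) :
    cosh (dist p (eich v u • p)) = 1 + B u u / 2 * (B v p.1) ^ 2 := by
  rw [cosh_dist, coe_smul, act_eich hv hu]
  simp only [B_sub_right, B_add_right, B_smul_right]
  rw [p.self, B_comm p.1 u, B_comm p.1 v]
  ring

theorem disp_eich {v u : Vec m} (hv : B v v = 0) (hu : B v u = 0) (p : X m) :
    dist p (eich v u • p) ≤ √(B u u) * |B v p.1| := by
  have h1 := cosh_disp_eich hv hu p
  set d := dist p (eich v u • p) with hd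
  have hd0 : 0 ≤ d := dist_nonneg
  have h2 : (2 * sinh (d / 2)) ^ 2 = B u u * (B v p.1) ^ 2 := by
    have h3 : cosh d = 2 * sinh (d / 2) ^ 2 + 1 := by
      have := cosh_two_mul (d / 2)
      rw [show 2 * (d / 2) = d by ring] at this
      rw [this, cosh_sq]
      ring
    rw [h3] at h1
    linarith
  have h4 : d / 2 ≤ sinh (d / 2) := self_le_sinh_iff.2 (by positivity)
  have h5 : 2 * sinh (d / 2) = √(B u u * (B v p.1) ^ 2) := by
    rw [← h2, sqrt_sq (by linarith [h4])]
  have h6 : √(B u u * (B v p.1) ^ 2) = √(B u u) * |B v p.1| := by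
    rcases le_total 0 (B u u) with h | h
    · rw [sqrt_mul h, sqrt_sq_eq_abs]
    · have : B u u * (B v p.1) ^ 2 ≤ 0 := mul_nonpos_of_nonpos_of_nonneg h (sq_nonneg _)
      rw [sqrt_eq_zero_of_nonpos this, sqrt_eq_zero_of_nonpos h, zero_mul]
  linarith

end Pool.Agent.Helper24.BR
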