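import Pool.Agent.Helper24.BR.LorE

/-!
# Project BR: frames of real hyperbolic space of dimension `k + 2`
-/

open Matrix Real

namespace Pool.Agent.Helper24.BR

variable {k : ℕ}

/-- The second basis vector. -/
def e1 : Vec (k + 2) := Pi.single 1 1

/-- The third basis vector. -/
def e2 : Vec (k + 2) := Pi.single 2 1

theorem B_single (x : Vec (k + 2)) (i : Fin (k + 3)) (hi : i ≠ 0) : B x (Pi.single i 1) = x i := by
  unfold B
  rw [dotProduct_single, Pi.single_eq_of_ne (Ne.symm hi)]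
  ring

theorem one_ne : (1 : Fin (k + 3)) ≠ 0 := by
  intro h
  have := congrArg Fin.val h
  simp at this

theorem val_two : ((2 : Fin (k + 3)) : ℕ) = 2 := Fin.val_two

theorem val_one : ((1 : Fin (k + 3)) : ℕ) = 1 := by
  rw [Fin.val_one]

theorem two_ne : (2 : Fin (k + 3)) ≠ 0 := by
  intro h
  have := congrArg Fin.val h
  rw [val_two] at this
  simp at this

theorem two_ne_one : (2 : Fin (k + 3)) ≠ 1 := by
  intro h
  have := congrArg Fin.val h
  rw [val_two, val_one] at this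
  omega

theorem B_e1_right (x : Vec (k + 2)) : B x e1 = x 1 := B_single x 1 one_ne

theorem B_e2_right (x : Vec (k + 2)) : B x e2 = x 2 := B_single x 2 two_ne

theorem B_e0_e1 : B (e0 : Vec (k + 2)) e1 = 0 := by
  rw [B_e1_right]
  unfold e0
  exact Pi.single_eq_of_ne one_ne _

theorem B_e1_e1 : B (e1 : Vec (k + 2)) e1 = 1 := by
  rw [B_e1_right]
  unfold e1
  exact Pi.single_eq_same _ _

theorem B_e0_e2 : B (e0 : Vec (k + 2)) e2 = 0 := by
  rw [B_e2_right]
  unfold e0
  exact Pi.single_eq_of_ne two_ne _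

theorem B_e1_e2 : B (e1 : Vec (k + 2)) e2 = 0 := by
  rw [B_e2_right]
  unfold e1
  exact Pi.single_eq_of_ne two_ne_one _

theorem B_e2_e2 : B (e2 : Vec (k + 2)) e2 = 1 := by
  rw [B_e2_right]
  unfold e2
  exact Pi.single_eq_same _ _

/-- The null vector of the point `∞`. -/
def xinf : Vec (k + 2) := e0 + e1

/-- The null vector of the point `0`. -/
def xzero : Vec (k + 2) := e0 - e1

theorem B_xinf_xinf : B (xinf : Vec (k + 2)) xinf = 0 := by
  unfold xinf
  rw [B_add_left, B_add_right, B_add_right, B_e0_self, B_e1_e1, B_comm e1 e0, B_e0_e1]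
  ring

theorem B_xzero_xzero : B (xzero : Vec (k + 2)) xzero = 0 := by
  unfold xzero
  rw [B_sub_left, B_sub_right, B_sub_right, B_e0_self, B_e1_e1, B_comm e1 e0, B_e0_e1]
  ring

theorem B_xinf_xzero : B (xinf : Vec (k + 2)) xzero = -2 := by
  unfold xinf xzero
  rw [B_add_left, B_sub_right, B_sub_right, B_e0_self, B_e1_e1, B_comm e1 e0, B_e0_e1]
  ring

/-! ### Boosts -/

/-- The boost along the line of the base frame. -/
noncomputable def boM (τ : ℝ) : Mat (k + 2) :=
  1 + vecMulVec e0 (-(cosh τ - 1) • Jv e0 + sinh τ • Jv e1) +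
    vecMulVec e1 (-sinh τ • Jv e0 + (cosh τ - 1) • Jv e1)

theorem boM_mulVec (τ : ℝ) (x : Vec (k + 2)) : boM τ *ᵥ x =
    x + (-(cosh τ - 1) * B e0 x + sinh τ * B e1 x) • e0 +
      (-sinh τ * B e0 x + (cosh τ - 1) * B e1 x) • e1 := by
  unfold boM
  rw [add_mulVec, add_mulVec, one_mulVec, vecMulVec_mulVec, vecMulVec_mulVec, add_dotProduct,
    add_dotProduct, smul_dotProduct, smul_dotProduct, smul_dotProduct, smul_dotProduct, Jv_dot,
    Jv_dot]
  funext i
  simp
  ring

theorem boM_mul (σ τ : ℝ) : (boM σ : Mat (k + 2)) * boM τ = boM (σ + τ) := by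
  apply Matrix.ext_of_mulVec_single
  intro i
  generalize (Pi.single i 1 : Vec (k + 2)) = x
  rw [← mulVec_mulVec, boM_mulVec, boM_mulVec, boM_mulVec, cosh_add, sinh_add]
  simp only [B_add_right, B_smul_right]
  rw [B_e0_self, B_e0_e1, B_comm e1 e0, B_e0_e1, B_e1_e1]
  funext j
  simp
  ring

theorem boM_pres (τ : ℝ) : Pres (boM τ : Mat (k + 2)) := by
  intro x y
  rw [boM_mulVec, boM_mulVec]
  simp only [B_add_left, B_add_right, B_smul_left, B_smul_right]
  rw [B_e0_self, B_e0_e1, B_comm e1 e0, B_e0_e1, B_e1_e1, B_comm x e0, B_comm x e1]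
  have h := cosh_sq τ
  generalize cosh τ = c at *
  generalize sinh τ = s at *
  linear_combination (B e0 x * B e0 y - B e1 x * B e1 y) * (-h)

theorem boM_det (τ : ℝ) : (boM τ : Mat (k + 2)).det = 1 := by
  refine det_of_sq (N := boM (τ / 2)) ?_ (boM_pres _).det_sq
  rw [boM_mul, add_halves]

theorem boM_pos (τ : ℝ) : 0 < (boM τ : Mat (k + 2)) 0 0 := by
  have h2 : (boM τ : Mat (k + 2)) 0 0 = (boM τ *ᵥ (e0 : Vec (k + 2))) 0 := by
    unfold e0
    simp
  have h3 : (e0 : Vec (k + 2)) 0 = 1 := by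
    unfold e0
    exact Pi.single_eq_same _ _
  have h4 : (e1 : Vec (k + 2)) 0 = 0 := by
    unfold e1
    exact Pi.single_eq_of_ne (Ne.symm one_ne) _
  rw [h2, boM_mulVec, B_e0_self, B_comm e1 e0, B_e0_e1]
  simp only [Pi.add_apply, Pi.smul_apply, smul_eq_mul, h3, h4]
  have := cosh_pos τ
  linarith

/-- The boost as an element of the group. -/
noncomputable def dg (τ : ℝ) : GG (k + 2) := mkG (boM τ) (boM_det τ) (boM_pres τ) (boM_pos τ)

theorem act_dg (τ : ℝ) (x : Vec (k + 2)) : act (dg τ) x =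
    x + (-(cosh τ - 1) * B e0 x + sinh τ * B e1 x) • e0 +
      (-sinh τ * B e0 x + (cosh τ - 1) * B e1 x) • e1 := by
  unfold dg
  rw [act_mkG, boM_mulVec]

theorem dg_add (σ τ : ℝ) : (dg (σ + τ) : GG (k + 2)) = dg σ * dg τ := by
  apply ext_act
  intro x
  rw [act_mul]
  unfold dg
  rw [act_mkG, act_mkG, act_mkG, mulVec_mulVec, boM_mul]

theorem dg_zero : (dg 0 : GG (k + 2)) = 1 := by
  apply ext_act
  intro x
  rw [act_dg, act_one]
  simp

theorem act_dg_xinf (τ : ℝ) : act (dg τ) (xinf : Vec (k + 2)) = exp τ • xinf := by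
  rw [act_dg]
  unfold xinf
  have h : exp τ = cosh τ + sinh τ := (cosh_add_sinh τ).symm
  rw [B_add_right, B_add_right, B_e0_self, B_e0_e1, B_comm e1 e0, B_e0_e1, B_e1_e1, h]
  funext j
  simp only [Pi.add_apply, Pi.smul_apply, smul_eq_mul]
  ring

theorem act_dg_xzero (τ : ℝ) : act (dg τ) (xzero : Vec (k + 2)) = exp (-τ) • xzero := by
  rw [act_dg]
  unfold xzero
  have h : exp (-τ) = cosh τ - sinh τ := (cosh_sub_sinh τ).symm
  rw [B_sub_right, B_sub_right, B_e0_self, B_e0_e1, B_comm e1 e0, B_e0_e1, B_e1_e1, h]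
  funext j
  simp only [Pi.add_apply, Pi.sub_apply, Pi.smul_apply, smul_eq_mul]
  ring

/-! ### The flip -/

theorem rfl_flip (x : Vec (k + 2)) : (rfl0 e1 * rfl0 e2) *ᵥ x =
    x - (2 * B e2 x) • e2 - (2 * B e1 x) • e1 := by
  rw [← mulVec_mulVec, rfl0_mulVec, rfl0_mulVec, B_e1_e1, B_e2_e2, B_sub_right, B_smul_right,
    B_e1_e2]
  simp

/-- The element exchanging `0` and `∞`. -/
noncomputable def flip : GG (k + 2) := mkG (rfl0 e1 * rfl0 e2)
  (by
    rw [det_mul, rfl0_det (by rw [B_e1_e1]; norm_num), rfl0_det (by rw [B_e2_e2]; norm_num)]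
    norm_num)
  ((rfl0_pres (by rw [B_e1_e1]; norm_num)).mul (rfl0_pres (by rw [B_e2_e2]; norm_num)))
  (by
    have h2 : (rfl0 e1 * rfl0 e2 : Mat (k + 2)) 0 0 =
        ((rfl0 e1 * rfl0 e2) *ᵥ (e0 : Vec (k + 2))) 0 := by
      unfold e0
      simp
    have h3 : (e0 : Vec (k + 2)) 0 = 1 := by
      unfold e0
      exact Pi.single_eq_same _ _
    rw [h2, rfl_flip, B_comm e2, B_comm e1, B_e0_e2, B_e0_e1]
    simp [h3])

theorem act_flip (x : Vec (k + 2)) : act flip x = x - (2 * B e2 x) • e2 - (2 * B e1 x) • e1 := by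
  unfold flip
  rw [act_mkG, rfl_flip]

theorem act_flip_xinf : act flip (xinf : Vec (k + 2)) = xzero := by
  rw [act_flip]
  unfold xinf xzero
  rw [B_add_right, B_add_right, B_comm e2 e0, B_comm e2 e1, B_comm e1 e0, B_e0_e2, B_e1_e2,
    B_e0_e1, B_e1_e1]
  funext j
  simp
  ring

theorem act_flip_xzero : act flip (xzero : Vec (k + 2)) = xinf := by
  rw [act_flip]
  unfold xinf xzero
  rw [B_sub_right, B_sub_right, B_comm e2 e0, B_comm e2 e1, B_comm e1 e0, B_e0_e2, B_e1_e2,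
    B_e0_e1, B_e1_e1]
  funext j
  simp
  ring

/-- The point of parameter `τ` on the line of the base frame. -/
noncomputable def vert (τ : ℝ) : X (k + 2) := (dg τ : GG (k + 2)) • (oo : X (k + 2))

theorem coe_vert (τ : ℝ) : (vert τ : X (k + 2)).1 = (1 / 2 : ℝ) • (exp τ • xinf + exp (-τ) • xzero) := by
  unfold vert
  rw [coe_smul]
  show act (dg τ) e0 = _
  have h : (e0 : Vec (k + 2)) = (1 / 2 : ℝ) • (xinf + xzero) := by
    unfold xinf xzero
    funext j
    simp
    ring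
  conv_lhs => rw [h]
  rw [act_smul, act_add, act_dg_xinf, act_dg_xzero]

theorem coe_vert' (τ : ℝ) : (vert τ : X (k + 2)).1 = cosh τ • e0 + sinh τ • e1 := by
  unfold vert
  rw [coe_smul]
  show act (dg τ) e0 = _
  rw [act_dg, B_e0_self, B_comm e1 e0, B_e0_e1]
  funext j
  simp
  ring

/-- The line of the frame `n`. -/
noncomputable def gam (n : GG (k + 2)) (τ : ℝ) : X (k + 2) := n • vert τ

theorem gam_eq (n : GG (k + 2)) (τ : ℝ) : gam n τ = (n * dg τ) • oo := by
  unfold gam vert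
  rw [mul_smul]

theorem gam_smul (h n : GG (k + 2)) (τ : ℝ) : gam (h * n) τ = h • gam n τ := by
  unfold gam
  rw [mul_smul]

theorem gam_flip (n : GG (k + 2)) (τ : ℝ) : gam (n * flip) τ = gam n (-τ) := by
  unfold gam
  rw [mul_smul]
  congr 1
  apply Subtype.ext
  rw [coe_smul, coe_vert, coe_vert, act_smul, act_add, act_smul, act_smul, act_flip_xinf,
    act_flip_xzero, neg_neg, add_comm (exp τ • (xzero : Vec (k + 2)))]

theorem dist_gam (n : GG (k + 2)) (σ τ : ℝ) : dist (gam n σ) (gam n τ) = |σ - τ| := by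
  unfold gam
  rw [dist_smul, dist_def, coe_vert', coe_vert']
  simp only [B_add_left, B_add_right, B_smul_left, B_smul_right]
  rw [B_e0_self, B_e0_e1, B_comm e1 e0, B_e0_e1, B_e1_e1]
  have h : -(cosh σ * (cosh τ * -1 + sinh τ * 0) + sinh σ * (cosh τ * 0 + sinh τ * 1)) =
      cosh |σ - τ| := by
    rw [cosh_abs, cosh_sub]
    ring
  have h2 := arcosh_cosh (abs_nonneg (σ - τ))
  rw [← h] at h2
  calc _ = arcosh (-(cosh σ * (cosh τ * -1 + sinh τ * 0) +
      sinh σ * (cosh τ * 0 + sinh τ * 1))) := by congr 1; ring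
    _ = _ := h2

/-! ### Transitivity -/

/-- Every orthonormal pair is the image of `(e0, e1)`. -/
theorem exists_onp (x : X (k + 2)) (u : Vec (k + 2)) (hu : B u u = 1) (hxu : B x.1 u = 0) :
    ∃ g : GG (k + 2), act g e0 = x.1 ∧ act g e1 = u := by
  -- first matrix
  obtain ⟨M, hM, hM0⟩ : ∃ M : Mat (k + 2), Pres M ∧ M *ᵥ e0 = x.1 := by
    by_cases h : e0 = x.1
    · exact ⟨1, Pres.one, by rw [one_mulVec, h]⟩
    · have hne : B (e0 - x.1) (e0 - x.1) ≠ 0 := by
        intro h0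
        rw [B_sub_left, B_sub_right, B_sub_right, B_e0_self, x.self, B_comm x.1 e0] at h0
        have h1 : -B (oo : X (k + 2)).1 x.1 = 1 := by
          show -B e0 x.1 = 1
          linarith
        have h2 := X.eq_of oo x h1
        exact h (congrArg Subtype.val h2)
      exact ⟨rfl0 (e0 - x.1), rfl0_pres hne, rfl0_swap (by rw [B_e0_self, x.self]) hne⟩
  obtain ⟨N, hN, hN0, hN1⟩ : ∃ N : Mat (k + 2), Pres N ∧ N *ᵥ e0 = x.1 ∧ N *ᵥ e1 = u := by
    by_cases h : M *ᵥ e1 = u
    · exact ⟨M, hM, hM0, h⟩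
    · have ho : B x.1 (M *ᵥ e1 - u) = 0 := by
        rw [B_sub_right, hxu, ← hM0, hM, B_e0_e1, sub_zero]
      have hne : B (M *ᵥ e1 - u) (M *ᵥ e1 - u) ≠ 0 := by
        intro h0
        exact h (sub_eq_zero.1 (eq_zero_of_orth x.self ho h0))
      refine ⟨rfl0 (M *ᵥ e1 - u) * M, (rfl0_pres hne).mul hM, ?_, ?_⟩
      · rw [← mulVec_mulVec, hM0, rfl0_fix]
        rw [B_comm]
        exact ho
      · rw [← mulVec_mulVec]
        exact rfl0_swap (by rw [hM, B_e1_e1, hu]) hne
  have h00 : ∀ P : Mat (k + 2), P *ᵥ e0 = x.1 → 0 < P 0 0 := by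
    intro P hP
    have : (P *ᵥ (e0 : Vec (k + 2))) 0 = P 0 0 := by
      unfold e0
      simp
    rw [← this, hP]
    exact x.pos
  have hdet := hN.det_sq
  rcases sq_eq_sq_iff_eq_or_eq_neg.1 (hdet.trans (one_pow 2).symm) with h | h
  · exact ⟨mkG N h hN (h00 N hN0), by rw [act_mkG, hN0], by rw [act_mkG, hN1]⟩
  · set w := N *ᵥ (e2 : Vec (k + 2)) with hw
    have hww : B w w ≠ 0 := by
      rw [hw, hN, B_e2_e2]
      norm_num
    have h2 : (rfl0 w * N) *ᵥ e0 = x.1 := by
      rw [← mulVec_mulVec, rfl0_fix, hN0]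
      rw [hw, hN, B_comm, B_e0_e2]
    have h3 : (rfl0 w * N) *ᵥ e1 = u := by
      rw [← mulVec_mulVec, rfl0_fix, hN1]
      rw [hw, hN, B_comm, B_e1_e2]
    refine ⟨mkG (rfl0 w * N) ?_ ((rfl0_pres hww).mul hN) (h00 _ h2), by rw [act_mkG, h2],
      by rw [act_mkG, h3]⟩
    rw [det_mul, rfl0_det hww, h]
    norm_num

/-- The group is transitive on the points. -/
theorem exists_smul_oo (x : X (k + 2)) : ∃ g : GG (k + 2), g • oo = x := by
  -- a unit vector orthogonal to `x`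
  obtain ⟨u, hu1, hu2⟩ : ∃ u : Vec (k + 2), B u u = 1 ∧ B x.1 u = 0 := by
    by_cases h : e0 = x.1
    · refine ⟨e1, B_e1_e1, ?_⟩
      rw [← h, B_e0_e1]
    · have hne : B (e0 - x.1) (e0 - x.1) ≠ 0 := by
        intro h0
        rw [B_sub_left, B_sub_right, B_sub_right, B_e0_self, x.self, B_comm x.1 e0] at h0
        have h1 : -B (oo : X (k + 2)).1 x.1 = 1 := by
          show -B e0 x.1 = 1
          linarith
        have h2 := X.eq_of oo x h1
        exact h (congrArg Subtype.val h2)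
      refine ⟨rfl0 (e0 - x.1) *ᵥ e1, by rw [rfl0_pres hne, B_e1_e1], ?_⟩
      have h3 : rfl0 (e0 - x.1) *ᵥ e0 = x.1 := rfl0_swap (by rw [B_e0_self, x.self]) hne
      calc B x.1 (rfl0 (e0 - x.1) *ᵥ e1) =
          B (rfl0 (e0 - x.1) *ᵥ e0) (rfl0 (e0 - x.1) *ᵥ e1) := by rw [h3]
        _ = 0 := by rw [rfl0_pres hne, B_e0_e1]
  obtain ⟨g, hg, -⟩ := exists_onp x u hu1 hu2
  exact ⟨g, Subtype.ext hg⟩

/-- Two points lie on the line of a frame. -/
theorem exists_frame (s t : X (k + 2)) :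
    ∃ g : GG (k + 2), g • oo = s ∧ gam g (dist s t) = t := by
  by_cases h : s = t
  · obtain ⟨g, hg⟩ := exists_smul_oo s
    refine ⟨g, hg, ?_⟩
    rw [gam_eq, h, dist_self, dg_zero, mul_one, hg, h]
  · have hd : 0 < dist s t := dist_pos.2 h
    have hsinh : 0 < sinh (dist s t) := sinh_pos_iff.2 hd
    have hc := cosh_dist s t
    set c := dist s t with hcd
    set u : Vec (k + 2) := (1 / sinh c) • (t.1 - cosh c • s.1) with hu
    have h1 : B s.1 u = 0 := by
      rw [hu, B_smul_right, B_sub_right, B_smul_right, s.self, hc]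
      ring
    have h2 : B u u = 1 := by
      rw [hu, B_smul_left, B_smul_right, B_sub_left, B_sub_right, B_sub_right, B_smul_left,
        B_smul_right, B_smul_left, B_smul_right, s.self, t.self, B_comm t.1 s.1]
      have h3 : B s.1 t.1 = -cosh c := by linarith
      rw [h3]
      have h4 := cosh_sq c
      field_simp
      linear_combination h4
    obtain ⟨g, hg0, hg1⟩ := exists_onp s u h2 h1
    refine ⟨g, Subtype.ext hg0, ?_⟩
    apply Subtype.ext
    unfold gam
    rw [coe_smul, coe_vert', act_add, act_smul, act_smul, hg0, hg1, hu, smul_smul]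
    funext j
    simp
    field_simp
    ring

end Pool.Agent.Helper24.BR
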