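import Pool.Agent.Helper24.BR.Lor

/-!
# Project BR: the group `SO_0(m, 1)`
-/

open Matrix Real

namespace Pool.Agent.Helper24.BR

/-- Square matrices. -/
abbrev Mat (m : ℕ) : Type := Matrix (Fin (m + 1)) (Fin (m + 1)) ℝ

/-- The special linear group. -/
abbrev SLn (m : ℕ) : Type := Matrix.SpecialLinearGroup (Fin (m + 1)) ℝ

variable {m : ℕ}

/-- The first basis vector (base point of the hyperboloid). -/
def e0 : Vec m := Pi.single 0 1

theorem B_e0_right (x : Vec m) : B x e0 = -(x 0) := by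
  unfold B e0
  rw [dotProduct_single, Pi.single_eq_same]
  ring

theorem B_e0_left (x : Vec m) : B e0 x = -(x 0) := by rw [B_comm, B_e0_right]

theorem B_e0_self : B (e0 : Vec m) e0 = -1 := by
  rw [B_e0_right]
  unfold e0
  rw [Pi.single_eq_same]

/-- The base point. -/
def oo : X m := ⟨e0, B_e0_self, by unfold e0; rw [Pi.single_eq_same]; exact one_pos⟩

/-- A matrix preserves the form. -/
def Pres (g : Mat m) : Prop :=
  ∀ x y : Vec m, B (g *ᵥ x) (g *ᵥ y) = B x y

theorem Pres.mul {g h : Mat m} (hg : Pres g) (hh : Pres h) :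
    Pres (g * h) := by
  intro x y
  rw [← mulVec_mulVec, ← mulVec_mulVec, hg, hh]

theorem Pres.one : Pres (1 : Mat m) := by
  intro x y
  rw [one_mulVec, one_mulVec]

/-- A vector with `B x x = -1` lies on one of the two sheets. -/
theorem sheet {x y : Vec m} (hx : B x x = -1) (hy : B y y = -1) (hy0 : 0 < y 0)
    (h : B x y < 0) : 0 < x 0 := by
  have h0 : x 0 ≠ 0 := by
    intro h0
    rw [B_self, h0] at hx
    have : 0 ≤ ∑ i : Fin m, x i.succ ^ 2 := Finset.sum_nonneg fun i _ => sq_nonneg _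
    nlinarith
  rcases lt_or_gt_of_ne h0 with hneg | hpos
  · exfalso
    have hx' : B (-x) (-x) = -1 := by rw [B_neg_left, B_neg_right, neg_neg, hx]
    have h1 := X.B_neg (⟨-x, hx', by simpa using hneg⟩ : X m) ⟨y, hy, hy0⟩
    simp only [B_neg_left] at h1
    linarith
  · exact hpos

theorem Pres.pos_of {g : Mat m} (hg : Pres g) (h0 : 0 < g 0 0)
    {x : Vec m} (hx : B x x = -1) (hx0 : 0 < x 0) : 0 < (g *ᵥ x) 0 := by
  have h1 : (g *ᵥ (e0 : Vec m)) 0 = g 0 0 := by
    unfold e0
    simp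
  refine sheet (y := g *ᵥ (e0 : Vec m)) (by rw [hg, hx]) (by rw [hg, B_e0_self])
    (by rw [h1]; exact h0) ?_
  rw [hg]
  exact X.B_neg ⟨x, hx, hx0⟩ oo

/-- `SO_0(m, 1)`: the matrices of determinant one which preserve the form and the sheet. -/
def GG (m : ℕ) : Subgroup (SLn m) where
  carrier := {g | Pres (g : Mat m) ∧ 0 < (g : Mat m) 0 0}
  mul_mem' := by
    rintro g h ⟨hg, hg0⟩ ⟨hh, hh0⟩
    refine ⟨by rw [Matrix.SpecialLinearGroup.coe_mul]; exact hg.mul hh, ?_⟩
    have h1 : (((h : Mat m) *ᵥ (e0 : Vec m))) 0 = (h : Mat m) 0 0 := by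
      unfold e0
      simp
    have h2 := hg.pos_of hg0 (x := (h : Mat m) *ᵥ (e0 : Vec m)) (by rw [hh, B_e0_self])
      (by rw [h1]; exact hh0)
    rw [mulVec_mulVec] at h2
    have h3 : ((((g : Mat m) * (h : Mat m)) *ᵥ (e0 : Vec m))) 0 = ((g : Mat m) * (h : Mat m)) 0 0 := by
      unfold e0
      simp
    rw [h3] at h2
    exact h2
  one_mem' := ⟨by rw [Matrix.SpecialLinearGroup.coe_one]; exact Pres.one, by simp⟩
  inv_mem' := by
    rintro g ⟨hg, hg0⟩
    have h1 : Pres ((g⁻¹ : SLn m) : Mat m) := by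
      intro x y
      rw [← hg, mulVec_mulVec, mulVec_mulVec, ← Matrix.SpecialLinearGroup.coe_mul, mul_inv_cancel,
        Matrix.SpecialLinearGroup.coe_one, one_mulVec, one_mulVec]
    refine ⟨h1, ?_⟩
    have h2 : ((g⁻¹ : SLn m) : Mat m) 0 0 = -B (((g⁻¹ : SLn m) : Mat m) *ᵥ (e0 : Vec m)) e0 := by
      rw [B_e0_right, neg_neg]
      unfold e0
      simp
    have h3 : B (((g⁻¹ : SLn m) : Mat m) *ᵥ (e0 : Vec m)) e0 = B (e0 : Vec m) ((g : Mat m) *ᵥ e0) := by
      rw [← hg, mulVec_mulVec, ← Matrix.SpecialLinearGroup.coe_mul, mul_inv_cancel,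
        Matrix.SpecialLinearGroup.coe_one, one_mulVec]
    rw [h2, h3, B_e0_left, neg_neg]
    unfold e0
    simpa using hg0

/-- The matrix of an element. -/
def mat (g : GG m) : Mat m := ((g : SLn m) : Mat m)

theorem mat_mul (g h : GG m) : mat (g * h) = mat g * mat h := by
  unfold mat
  rw [Subgroup.coe_mul, Matrix.SpecialLinearGroup.coe_mul]

theorem mat_one : mat (1 : GG m) = 1 := by
  unfold mat
  rw [Subgroup.coe_one, Matrix.SpecialLinearGroup.coe_one]

/-- The linear action. -/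
def act (g : GG m) (x : Vec m) : Vec m := mat g *ᵥ x

theorem act_mul (g h : GG m) (x : Vec m) : act (g * h) x = act g (act h x) := by
  unfold act
  rw [mat_mul, mulVec_mulVec]

theorem act_one (x : Vec m) : act 1 x = x := by
  unfold act
  rw [mat_one, one_mulVec]

theorem act_add (g : GG m) (x y : Vec m) : act g (x + y) = act g x + act g y := mulVec_add _ _ _

theorem act_smul (g : GG m) (c : ℝ) (x : Vec m) : act g (c • x) = c • act g x :=
  mulVec_smul _ _ _

theorem act_sub (g : GG m) (x y : Vec m) : act g (x - y) = act g x - act g y := mulVec_sub _ _ _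

theorem act_inv_act (g : GG m) (x : Vec m) : act g⁻¹ (act g x) = x := by
  rw [← act_mul, inv_mul_cancel, act_one]

theorem act_act_inv (g : GG m) (x : Vec m) : act g (act g⁻¹ x) = x := by
  rw [← act_mul, mul_inv_cancel, act_one]

theorem B_act (g : GG m) (x y : Vec m) : B (act g x) (act g y) = B x y := g.2.1 x y

theorem B_act_inv (g : GG m) (x y : Vec m) : B (act g⁻¹ x) y = B x (act g y) := by
  rw [← B_act g, act_act_inv]

instance : MulAction (GG m) (X m) where
  smul g x := ⟨act g x.1, by rw [B_act]; exact x.self, g.2.1.pos_of g.2.2 x.self x.pos⟩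
  one_smul x := Subtype.ext (act_one x.1)
  mul_smul g h x := Subtype.ext (act_mul g h x.1)

@[simp] theorem coe_smul (g : GG m) (x : X m) : (g • x).1 = act g x.1 := rfl

instance : IsIsometricSMul (GG m) (X m) where
  isometry_smul g := by
    refine Isometry.of_dist_eq fun x y => ?_
    rw [dist_def, dist_def, coe_smul, coe_smul, B_act]

/-- An element of the group from a matrix. -/
def mkG (M : Mat m) (hd : M.det = 1) (hp : Pres M)
    (h0 : 0 < M 0 0) : GG m := ⟨⟨M, hd⟩, hp, h0⟩

theorem act_mkG (M : Mat m) (hd : M.det = 1) (hp : Pres M)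
    (h0 : 0 < M 0 0) (x : Vec m) : act (mkG M hd hp h0) x = M *ᵥ x := rfl

/-- Elements are equal if they act equally. -/
theorem ext_act {g h : GG m} (H : ∀ x, act g x = act h x) : g = h := by
  apply Subtype.ext
  apply Subtype.ext
  have : ∀ x : Vec m, mat g *ᵥ x = mat h *ᵥ x := H
  exact Matrix.ext_of_mulVec_single fun i => this _

/-! ### Reflections -/

/-- The vector `J w`. -/
def Jv (w : Vec m) : Vec m := fun i => if i = 0 then -w 0 else w i

theorem Jv_dot (w x : Vec m) : Jv w ⬝ᵥ x = B w x := by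
  rw [B_eq]
  unfold dotProduct
  rw [Fin.sum_univ_succ]
  simp [Jv, Fin.succ_ne_zero]

/-- The matrix of `x ↦ x + B(w, x) u`. -/
def rk1 (u w : Vec m) : Mat m := 1 + vecMulVec u (Jv w)

theorem rk1_mulVec (u w x : Vec m) : rk1 u w *ᵥ x = x + B w x • u := by
  unfold rk1
  rw [add_mulVec, one_mulVec, vecMulVec_mulVec, Jv_dot]
  congr 1
  funext i
  simp [mul_comm]

theorem rk1_det (u w : Vec m) : (rk1 u w).det = 1 + B w u := by
  unfold rk1
  rw [← Jv_dot]
  have := Matrix.det_one_add_replicateCol_mul_replicateRow (ι := Unit) u (Jv w)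
  rw [← vecMulVec_eq] at this
  exact this

end Pool.Agent.Helper24.BR
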