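import Pool.Agent.Helper24.BR.LorF

/-!
# Project BR: null vectors, ideal points, the null pairing, Ptolemy's inequality
-/

open Matrix Real

namespace Pool.Agent.Helper24.BR

variable {m : ℕ}

/-- A future null vector. -/
def Nul (v : Vec m) : Prop := B v v = 0 ∧ 0 < v 0

theorem Nul.B_nonpos {v w : Vec m} (hv : Nul v) (hw : Nul w) : B v w ≤ 0 := by
  have h1 := cs v w
  have h2 := hv.1
  have h3 := hw.1
  rw [B_self] at h2 h3
  rw [B_eq]
  have h4 : ∑ i : Fin m, v i.succ ^ 2 = v 0 ^ 2 := by linarith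
  have h5 : ∑ i : Fin m, w i.succ ^ 2 = w 0 ^ 2 := by linarith
  rw [h4, h5, ← mul_pow] at h1
  have h6 := abs_le_of_sq_le_sq' h1 (mul_pos hv.2 hw.2).le
  linarith [h6.2]

/-- Orthogonal null vectors are proportional. -/
theorem Nul.prop {v w : Vec m} (hv : Nul v) (hw : Nul w) (h : B v w = 0) :
    v = (v 0 / w 0) • w := by
  have hw0 := hw.2
  set c := v 0 / w 0 with hc
  set z : Vec m := v - c • w with hz
  have h0 : z 0 = 0 := by
    rw [hz, hc]
    simp only [Pi.sub_apply, Pi.smul_apply, smul_eq_mul]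
    field_simp
    ring
  have h1 : B z z = 0 := by
    rw [hz, B_sub_left, B_sub_right, B_sub_right, B_smul_left, B_smul_left, B_smul_right,
      B_smul_right, hv.1, hw.1, B_comm w v, h]
    ring
  have h2 : ∑ i : Fin m, z i.succ ^ 2 = 0 := by
    rw [B_self, h0] at h1
    linarith
  have h3 : z = 0 := by
    funext i
    refine Fin.cases ?_ (fun j => ?_) i
    · exact h0
    · have := (Finset.sum_eq_zero_iff_of_nonneg (fun i _ => sq_nonneg _)).1 h2 j
        (Finset.mem_univ j)
      exact pow_eq_zero_iff (two_ne_zero) |>.1 this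
  rw [hz] at h3
  exact sub_eq_zero.1 h3

theorem Nul.B_pos_neg {v : Vec m} (hv : Nul v) (p : X m) : B p.1 v < 0 := by
  have h1 := cs p.1 v
  have h2 := hv.1
  have h3 := p.self
  rw [B_self] at h2 h3
  rw [B_eq]
  have h4 : ∑ i : Fin m, v i.succ ^ 2 = v 0 ^ 2 := by linarith
  have h5 : ∑ i : Fin m, p.1 i.succ ^ 2 = p.1 0 ^ 2 - 1 := by linarith
  rw [h4, h5] at h1
  have hv0 := hv.2
  have h6 : (∑ i : Fin m, p.1 i.succ * v i.succ) ^ 2 < (p.1 0 * v 0) ^ 2 := by
    have : 0 < v 0 ^ 2 := by positivity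
    nlinarith
  have h7 : ∑ i : Fin m, p.1 i.succ * v i.succ < p.1 0 * v 0 :=
    lt_of_pow_lt_pow_left₀ 2 (mul_pos p.pos hv0).le h6
  linarith

theorem Nul.smul {v : Vec m} (hv : Nul v) {c : ℝ} (hc : 0 < c) : Nul (c • v) := by
  refine ⟨?_, ?_⟩
  · rw [B_smul_left, B_smul_right, hv.1]
    ring
  · simp only [Pi.smul_apply, smul_eq_mul]
    exact mul_pos hc hv.2

theorem Nul.act {v : Vec m} (hv : Nul v) (g : GG m) : Nul (act g v) := by
  refine ⟨by rw [B_act, hv.1], ?_⟩
  have h1 := hv.B_pos_neg (g⁻¹ • (oo : X m))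
  rw [coe_smul, B_act_inv] at h1
  have h2 : (oo : X m).1 = e0 := rfl
  rw [h2, B_e0_left] at h1
  linarith

/-- Comparison of the pairings of a null vector with two points. -/
theorem Nul.le {v : Vec m} (hv : Nul v) (p p' : X m) :
    -B p'.1 v ≤ exp (dist p p') * (-B p.1 v) := by
  have ha := hv.B_pos_neg p
  set b := B p.1 v with hb
  set d := dist p p' with hd
  have hd0 : 0 ≤ d := dist_nonneg
  have hc : B p.1 p'.1 = -cosh d := by
    rw [hd, cosh_dist, neg_neg]
  have h1 : B p.1 (p'.1 + B p.1 p'.1 • p.1) = 0 := by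
    rw [B_add_right, B_smul_right, p.self]
    ring
  have h2 : B p.1 (v + b • p.1) = 0 := by
    rw [B_add_right, B_smul_right, p.self, ← hb]
    ring
  have h3 := cs_orth p.self h1 h2
  have h4 : B (p'.1 + B p.1 p'.1 • p.1) (p'.1 + B p.1 p'.1 • p.1) = sinh d ^ 2 := by
    rw [B_add_right, B_add_left, B_add_left, B_smul_right, B_smul_right, B_smul_left, B_smul_left,
      p.self, p'.self, B_comm p'.1 p.1, hc, sinh_sq]
    ring
  have h5 : B (v + b • p.1) (v + b • p.1) = b ^ 2 := by
    rw [B_add_right, B_add_left, B_add_left, B_smul_right, B_smul_right, B_smul_left, B_smul_left,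
      p.self, B_comm v p.1, ← hb, hv.1]
    ring
  have h6 : B (p'.1 + B p.1 p'.1 • p.1) (v + b • p.1) = B p'.1 v - cosh d * b := by
    rw [B_add_right, B_add_left, B_add_left, B_smul_right, B_smul_right, B_smul_left, B_smul_left,
      p.self, B_comm p'.1 p.1, ← hb, hc]
    ring
  rw [h4, h5, h6, ← mul_pow] at h3
  have hs : 0 ≤ sinh d := sinh_nonneg_iff.2 hd0
  have h7 := sq_le_sq.1 h3
  rw [abs_mul, abs_of_nonneg hs, abs_of_neg ha] at h7
  have h8 := (abs_le.1 h7).1
  have h9 : exp d = cosh d + sinh d := (cosh_add_sinh d).symm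
  rw [h9]
  nlinarith

theorem Nul.ge {v : Vec m} (hv : Nul v) (p p' : X m) :
    exp (-dist p p') * (-B p.1 v) ≤ -B p'.1 v := by
  have h1 := hv.le p' p
  rw [dist_comm] at h1
  have h2 := mul_le_mul_of_nonneg_left h1 (exp_pos (-dist p p')).le
  rwa [← mul_assoc, ← exp_add, neg_add_cancel, exp_zero, one_mul] at h2

/-- Decomposition with respect to two null vectors. -/
theorem nul_decomp {a c d : Vec m} (hc : Nul c) (hd : Nul d) (h : B c d ≠ 0) :
    ∃ w : Vec m, B c w = 0 ∧ B d w = 0 ∧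
      a = (B a d / B c d) • c + (B a c / B c d) • d + w := by
  refine ⟨a - (B a d / B c d) • c - (B a c / B c d) • d, ?_, ?_, ?_⟩
  · rw [B_sub_right, B_sub_right, B_smul_right, B_smul_right, hc.1, B_comm c a]
    field_simp
    ring
  · rw [B_sub_right, B_sub_right, B_smul_right, B_smul_right, hd.1, B_comm d a, B_comm d c]
    field_simp
    ring
  · abel

/-- Ptolemy's inequality. -/
theorem ptolemy {a b c d : Vec m} (ha : Nul a) (hb : Nul b) (hc : Nul c) (hd : Nul d) :
    √(B a b * B c d) ≤ √(B a c * B b d) + √(B a d * B b c) := by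
  by_cases h : B c d = 0
  · rw [h, mul_zero, sqrt_zero]
    positivity
  have hn : B c d < 0 := lt_of_le_of_ne (hc.B_nonpos hd) h
  obtain ⟨w, hw1, hw2, hw⟩ := nul_decomp (a := a) hc hd h
  obtain ⟨w', hw1', hw2', hw'⟩ := nul_decomp (a := b) hc hd h
  -- the timelike vector
  set s : ℝ := √(1 / (2 * -B c d)) with hs
  have hs2 : s ^ 2 = 1 / (2 * -B c d) := sq_sqrt (by
    have : 0 < 2 * -B c d := by linarith
    positivity)
  have hx : B (s • (c + d)) (s • (c + d)) = -1 := by
    rw [B_smul_left, B_smul_right, B_add_left, B_add_right, B_add_right, hc.1, hd.1, B_comm d c]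
    have : s * (s * (0 + B c d + (B c d + 0))) = s ^ 2 * (2 * B c d) := by ring
    rw [this, hs2]
    field_simp
  have o1 : B (s • (c + d)) w = 0 := by
    rw [B_smul_left, B_add_left, hw1, hw2]
    ring
  have o2 : B (s • (c + d)) w' = 0 := by
    rw [B_smul_left, B_add_left, hw1', hw2']
    ring
  have hcs := cs_orth hx o1 o2
  set n := B c d with hnd
  set ac := B a c with hac
  set ad := B a d with had
  set bc := B b c with hbc
  set bd := B b d with hbd
  have hac0 : ac ≤ 0 := ha.B_nonpos hc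
  have had0 : ad ≤ 0 := ha.B_nonpos hd
  have hbc0 : bc ≤ 0 := hb.B_nonpos hc
  have hbd0 : bd ≤ 0 := hb.B_nonpos hd
  have haa : B a a = 2 * (ad * ac) / n + B w w := by
    conv_lhs => rw [hw]
    simp only [B_add_left, B_add_right, B_smul_left, B_smul_right]
    rw [B_comm w c, B_comm w d, hw1, hw2, hc.1, hd.1, B_comm d c, ← hnd]
    field_simp
    ring
  have hbb : B b b = 2 * (bd * bc) / n + B w' w' := by
    conv_lhs => rw [hw']
    simp only [B_add_left, B_add_right, B_smul_left, B_smul_right]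
    rw [B_comm w' c, B_comm w' d, hw1', hw2', hc.1, hd.1, B_comm d c, ← hnd]
    field_simp
    ring
  have hab : B a b = (ad * bc + ac * bd) / n + B w w' := by
    conv_lhs => rw [hw, hw']
    simp only [B_add_left, B_add_right, B_smul_left, B_smul_right]
    rw [B_comm w c, B_comm w d, hw1, hw2, hw1', hw2', hc.1, hd.1, B_comm d c, ← hnd]
    field_simp
    ring
  rw [ha.1] at haa
  rw [hb.1] at hbb
  have e1 : B w w = -(2 * (ad * ac) / n) := by linarith
  have e2 : B w' w' = -(2 * (bd * bc) / n) := by linarith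
  rw [e1, e2] at hcs
  -- the square
  have hP : 0 ≤ ac * bd := mul_nonneg_of_nonpos_of_nonpos hac0 hbd0
  have hQ : 0 ≤ ad * bc := mul_nonneg_of_nonpos_of_nonpos had0 hbc0
  have h5 : (n * B w w') ^ 2 ≤ (2 * (√(ac * bd) * √(ad * bc))) ^ 2 := by
    rw [mul_pow, mul_pow, mul_pow, sq_sqrt hP, sq_sqrt hQ]
    have h6 : n ^ 2 * (-(2 * (ad * ac) / n) * -(2 * (bd * bc) / n)) =
        2 ^ 2 * (ac * bd * (ad * bc)) := by
      field_simp
    rw [← h6]
    exact mul_le_mul_of_nonneg_left hcs (sq_nonneg n)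
  have h7 := abs_le_of_sq_le_sq' h5 (by positivity)
  have h8 : B a b * n ≤ (√(ac * bd) + √(ad * bc)) ^ 2 := by
    rw [hab, add_sq, sq_sqrt hP, sq_sqrt hQ]
    have h9 : ((ad * bc + ac * bd) / n + B w w') * n = ad * bc + ac * bd + n * B w w' := by
      field_simp
    rw [h9]
    linarith [h7.2]
  calc √(B a b * n) ≤ √((√(ac * bd) + √(ad * bc)) ^ 2) := sqrt_le_sqrt h8
    _ = _ := sqrt_sq (by positivity)

end Pool.Agent.Helper24.BR
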