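import Pool.Agent.Helper24.BR.LorN
import Pool.Agent.Helper17.BR.Haar

/-!
# Project BR: topology of `SO_0(m, 1)` and of its action
-/

open Matrix Real Topology

namespace Pool.Agent.Helper24.BR

variable {m : ℕ}

theorem mat_apply (g : GG m) (i j : Fin (m + 1)) : mat g i j = act g (Pi.single j 1) i := by
  unfold act
  simp

theorem isEmbedding_mat : IsEmbedding (mat : GG m → Mat m) := by
  have h1 : IsEmbedding (Subtype.val : GG m → SLn m) := IsEmbedding.subtypeVal
  have h2 : IsEmbedding ((↑) : SLn m → Mat m) :=
    Matrix.SpecialLinearGroup.isClosedEmbedding_val.isEmbedding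
  exact h2.comp h1

theorem continuous_mat : Continuous (mat : GG m → Mat m) := isEmbedding_mat.continuous

theorem continuous_entry (i j : Fin (m + 1)) : Continuous fun g : GG m => mat g i j :=
  continuous_mat.matrix_elem i j

theorem continuous_act {α : Type*} [TopologicalSpace α] {f : α → GG m} {x : α → Vec m}
    (hf : Continuous f) (hx : Continuous x) : Continuous fun a => act (f a) (x a) :=
  (continuous_mat.comp hf).matrix_mulVec hx

theorem continuous_B {α : Type*} [TopologicalSpace α] {x y : α → Vec m}
    (hx : Continuous x) (hy : Continuous y) : Continuous fun a => B (x a) (y a) := by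
  unfold B
  exact (hx.dotProduct hy).sub (continuous_const.mul
    (((continuous_apply 0).comp hx).mul ((continuous_apply 0).comp hy)))

theorem continuous_of_act {α : Type*} [TopologicalSpace α] {f : α → GG m}
    (h : ∀ x, Continuous fun a => act (f a) x) : Continuous f := by
  rw [isEmbedding_mat.continuous_iff]
  refine continuous_matrix fun i j => ?_
  have : (fun a => (mat ∘ f) a i j) = fun a => act (f a) (Pi.single j 1) i := by
    funext a
    exact mat_apply (f a) i j
  rw [this]
  exact (continuous_apply i).comp (h _)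

theorem continuousOn_of_act {α : Type*} [TopologicalSpace α] {f : α → GG m} {s : Set α}
    (h : ∀ x, ContinuousOn (fun a => act (f a) x) s) : ContinuousOn f s := by
  rw [continuousOn_iff_continuous_domRestrict]
  apply continuous_of_act
  intro x
  have := h x
  rw [continuousOn_iff_continuous_domRestrict] at this
  exact this

instance : SecondCountableTopology (GG m) := by
  have : SecondCountableTopology (Mat m) :=
    inferInstanceAs (SecondCountableTopology (Fin (m + 1) → Fin (m + 1) → ℝ))
  exact isEmbedding_mat.secondCountableTopology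

instance : T2Space (GG m) := by
  have : T2Space (Mat m) := inferInstanceAs (T2Space (Fin (m + 1) → Fin (m + 1) → ℝ))
  exact isEmbedding_mat.t2Space

/-- The upper left entry. -/
theorem entry_zero (g : GG m) : mat g 0 0 = -B (oo : X m).1 (g • oo : X m).1 := by
  rw [coe_smul]
  show _ = -B e0 (act g e0)
  rw [B_e0_left, neg_neg, mat_apply]
  rfl

theorem cosh_disp (g : GG m) : cosh (dist (oo : X m) (g • oo)) = mat g 0 0 := by
  rw [cosh_dist, entry_zero]

theorem one_le_entry (g : GG m) : 1 ≤ mat g 0 0 := by
  rw [← cosh_disp]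
  exact one_le_cosh _

/-- The rows and columns of elements of the group. -/
theorem col_sq (g : GG m) (j : Fin m) :
    ∑ i : Fin m, mat g i.succ j.succ ^ 2 = 1 + mat g 0 j.succ ^ 2 := by
  have h1 : B (act g (Pi.single j.succ 1)) (act g (Pi.single j.succ 1)) = 1 := by
    rw [B_act]
    unfold B
    rw [dotProduct_single, Pi.single_eq_same, Pi.single_eq_of_ne (Fin.succ_ne_zero j).symm]
    ring
  rw [B_self] at h1
  simp only [← mat_apply] at h1
  linarith

theorem col_zero (g : GG m) : ∑ i : Fin m, mat g i.succ 0 ^ 2 = mat g 0 0 ^ 2 - 1 := by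
  have h1 : B (act g (Pi.single 0 1)) (act g (Pi.single 0 1)) = -1 := by
    rw [B_act]
    exact B_e0_self
  rw [B_self] at h1
  simp only [← mat_apply] at h1
  linarith

/-- The inverse is the conjugate transposed matrix. -/
theorem mat_inv (g : GG m) (i j : Fin (m + 1)) :
    mat g⁻¹ i j = (if i = 0 then -1 else 1) * ((if j = 0 then -1 else 1) * mat g j i) := by
  have hs : ∀ (x : Vec m) (i : Fin (m + 1)), x i = (if i = 0 then -1 else 1) *
      B (Pi.single i 1) x := by
    intro x i
    unfold B
    rw [single_dotProduct]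
    by_cases h : i = 0
    · rw [h, Pi.single_eq_same]
      simp
      ring
    · rw [Pi.single_eq_of_ne (Ne.symm h)]
      simp [h]
  rw [mat_apply, hs (act g⁻¹ _) i, B_comm, B_act_inv, mat_apply, hs (act g _) j]
  by_cases h : j = 0 <;> simp [h]

theorem row_zero (g : GG m) : ∑ j : Fin m, mat g 0 j.succ ^ 2 = mat g 0 0 ^ 2 - 1 := by
  have h1 := col_zero g⁻¹
  simp only [mat_inv] at h1
  simpa [Fin.succ_ne_zero] using h1

theorem entry_le (g : GG m) (i j : Fin (m + 1)) : |mat g i j| ≤ mat g 0 0 := by
  have h1 := one_le_entry g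
  have e1 : ∀ i : Fin m, mat g i.succ 0 ^ 2 ≤ mat g 0 0 ^ 2 - 1 := by
    intro i
    rw [← col_zero g]
    exact Finset.single_le_sum (f := fun i : Fin m => mat g i.succ 0 ^ 2)
      (fun i _ => sq_nonneg _) (Finset.mem_univ i)
  have e2 : ∀ j : Fin m, mat g 0 j.succ ^ 2 ≤ mat g 0 0 ^ 2 - 1 := by
    intro j
    rw [← row_zero g]
    exact Finset.single_le_sum (f := fun j : Fin m => mat g 0 j.succ ^ 2)
      (fun i _ => sq_nonneg _) (Finset.mem_univ j)
  have e3 : ∀ i j : Fin m, mat g i.succ j.succ ^ 2 ≤ mat g 0 0 ^ 2 := by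
    intro i j
    have h2 : mat g i.succ j.succ ^ 2 ≤ ∑ i : Fin m, mat g i.succ j.succ ^ 2 :=
      Finset.single_le_sum (f := fun i : Fin m => mat g i.succ j.succ ^ 2)
        (fun i _ => sq_nonneg _) (Finset.mem_univ i)
    rw [col_sq] at h2
    linarith [e2 j]
  have key : ∀ x : ℝ, x ^ 2 ≤ mat g 0 0 ^ 2 → |x| ≤ mat g 0 0 := by
    intro x hx
    have := sq_le_sq.1 hx
    rwa [abs_of_nonneg (by linarith : 0 ≤ mat g 0 0)] at this
  refine key _ ?_
  refine Fin.cases ?_ (fun i => ?_) i <;> refine Fin.cases ?_ (fun j => ?_) j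
  · exact le_rfl
  · linarith [e2 j]
  · linarith [e1 i]
  · exact e3 i j

theorem isClosed_GG : IsClosed (GG m : Set (SLn m)) := by
  have h : (GG m : Set (SLn m)) = {g : SLn m | (∀ x y : Vec m, B ((g : Mat m) *ᵥ x) ((g : Mat m) *ᵥ y) =
      B x y) ∧ 1 ≤ (g : Mat m) 0 0} := by
    ext g
    constructor
    · intro hg
      exact ⟨hg.1, one_le_entry ⟨g, hg⟩⟩
    · rintro ⟨h1, h2⟩
      exact ⟨h1, by linarith⟩
  have hv : Continuous fun g : SLn m => (g : Mat m) :=
    Matrix.SpecialLinearGroup.isClosedEmbedding_val.isEmbedding.continuous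
  rw [h]
  refine IsClosed.inter ?_ (isClosed_le continuous_const (hv.matrix_elem 0 0))
  have e : {g : SLn m | ∀ x y : Vec m, B ((g : Mat m) *ᵥ x) ((g : Mat m) *ᵥ y) = B x y} =
      ⋂ x : Vec m, ⋂ y : Vec m, {g : SLn m | B ((g : Mat m) *ᵥ x) ((g : Mat m) *ᵥ y) = B x y} := by
    ext g
    rw [Set.mem_iInter]
    constructor
    · intro h x
      rw [Set.mem_iInter]
      intro y
      exact h x y
    · intro h x y
      have := h x
      rw [Set.mem_iInter] at this
      exact this y
  show IsClosed {g : SLn m | ∀ x y : Vec m, B ((g : Mat m) *ᵥ x) ((g : Mat m) *ᵥ y) = B x y}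
  rw [e]
  refine isClosed_iInter fun x => isClosed_iInter fun y => isClosed_eq ?_ continuous_const
  exact continuous_B (hv.matrix_mulVec continuous_const) (hv.matrix_mulVec continuous_const)

theorem isClosedEmbedding_mat : IsClosedEmbedding (mat : GG m → Mat m) := by
  have h1 : IsClosedEmbedding (Subtype.val : GG m → SLn m) := isClosed_GG.isClosedEmbedding_subtypeVal
  exact (Matrix.SpecialLinearGroup.isClosedEmbedding_val (R := ℝ)).comp h1

theorem isCompact_box (C : ℝ) : IsCompact {M : Mat m | ∀ i j, M i j ∈ Set.Icc (-C) C} := by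
  have h : IsCompact (Set.pi Set.univ fun _ : Fin (m + 1) =>
      (Set.pi Set.univ fun _ : Fin (m + 1) => Set.Icc (-C) C)) :=
    isCompact_univ_pi fun _ => isCompact_univ_pi fun _ => isCompact_Icc
  have e : {M : Mat m | ∀ i j, M i j ∈ Set.Icc (-C) C} =
      (Set.pi Set.univ fun _ : Fin (m + 1) =>
        (Set.pi Set.univ fun _ : Fin (m + 1) => Set.Icc (-C) C)) := by
    apply Set.ext
    intro M
    constructor
    · intro h i _ j _
      exact h i j
    · intro h i j
      exact h i (Set.mem_univ i) j (Set.mem_univ j)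
  rw [e]
  exact h

theorem isCompact_entry (c : ℝ) : IsCompact {g : GG m | mat g 0 0 ≤ c} := by
  refine (isClosedEmbedding_mat.isCompact_preimage (isCompact_box c)).of_isClosed_subset
    (isClosed_le (continuous_entry 0 0) continuous_const) ?_
  intro g hg i j
  exact abs_le.1 ((entry_le g i j).trans hg)

theorem disp_le_iff (g : GG m) {R : ℝ} (hR : 0 ≤ R) :
    dist (oo : X m) (g • oo) ≤ R ↔ mat g 0 0 ≤ cosh R := by
  rw [← cosh_disp, cosh_le_cosh, abs_of_nonneg dist_nonneg, abs_of_nonneg hR]

theorem isCompact_disp (R : ℝ) : IsCompact {g : GG m | dist (oo : X m) (g • oo) ≤ R} := by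
  rcases le_or_gt 0 R with hR | hR
  · simp only [disp_le_iff _ hR]
    exact isCompact_entry _
  · have : {g : GG m | dist (oo : X m) (g • oo) ≤ R} = ∅ := by
      ext g
      simp only [Set.mem_ofPred_eq, Set.mem_empty_iff_false, iff_false, not_le]
      exact lt_of_lt_of_le hR dist_nonneg
    rw [this]
    exact isCompact_empty

instance : LocallyCompactSpace (GG m) := by
  have : LocallyCompactSpace (Mat m) :=
    inferInstanceAs (LocallyCompactSpace (Fin (m + 1) → Fin (m + 1) → ℝ))
  exact isClosedEmbedding_mat.locallyCompactSpace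

/-- A map to the hyperbolic space is continuous if its coordinates are. -/
theorem continuous_of_val {α : Type*} [TopologicalSpace α] {f : α → X m}
    (h : Continuous fun a => (f a).1) : Continuous f := by
  rw [continuous_iff_continuousAt]
  intro a
  unfold ContinuousAt
  rw [tendsto_iff_dist_tendsto_zero]
  have h1 : Continuous fun b => dist (f b) (f a) := by
    simp only [dist_def]
    refine continuousOn_arcosh.comp_continuous ?_ fun b => (f b).one_le (f a)
    exact (continuous_B h continuous_const).neg
  have := h1.tendsto a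
  simpa using this

/-- The coordinates are continuous. -/
theorem continuous_val : Continuous fun x : X m => x.1 := by
  -- the first coordinate
  have h0 : Continuous fun x : X m => x.1 0 := by
    have : (fun x : X m => x.1 0) = fun x => cosh (dist x oo) := by
      funext x
      rw [cosh_dist]
      show _ = -B x.1 e0
      rw [B_e0_right, neg_neg]
    rw [this]
    fun_prop
  rw [continuous_iff_continuousAt]
  intro y
  have hz : ∀ i : Fin m, Filter.Tendsto
      (fun x : X m => x.1 i.succ + B y.1 x.1 * y.1 i.succ) (𝓝 y) (𝓝 0) := by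
    intro i
    rw [tendsto_zero_iff_abs_tendsto_zero]
    have h1 : ∀ x : X m, |x.1 i.succ + B y.1 x.1 * y.1 i.succ| ≤
        √(y.1 0 ^ 2 * sinh (dist y x) ^ 2) := by
      intro x
      have o : B y.1 (x.1 + B y.1 x.1 • y.1) = 0 := by
        rw [B_add_right, B_smul_right, y.self]
        ring
      have h2 := le_of_orth y.self o
      have h3 : B (x.1 + B y.1 x.1 • y.1) (x.1 + B y.1 x.1 • y.1) = sinh (dist y x) ^ 2 := by
        rw [sinh_sq, cosh_dist, B_add_right, B_add_left, B_add_left, B_smul_right, B_smul_right,
          B_smul_left, B_smul_left, x.self, y.self, B_comm x.1 y.1]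
        ring
      rw [h3] at h2
      apply abs_le_sqrt
      refine le_trans ?_ h2
      have h4 := Finset.single_le_sum
        (f := fun i : Fin m => (x.1 + B y.1 x.1 • y.1) i.succ ^ 2)
        (fun i _ => sq_nonneg _) (Finset.mem_univ i)
      simpa using h4
    have h5 : Filter.Tendsto (fun x : X m => √(y.1 0 ^ 2 * sinh (dist y x) ^ 2)) (𝓝 y) (𝓝 0) := by
      have hc : Continuous fun x : X m => √(y.1 0 ^ 2 * sinh (dist y x) ^ 2) := by
        have : Continuous fun x : X m => dist y x := by fun_prop
        exact continuous_sqrt.comp (continuous_const.mul ((continuous_sinh.comp this).pow 2))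
      have := hc.tendsto y
      simpa using this
    exact squeeze_zero (fun _ => abs_nonneg _) h1 h5
  have hB : Filter.Tendsto (fun x : X m => B y.1 x.1) (𝓝 y) (𝓝 (-1)) := by
    have : (fun x : X m => B y.1 x.1) = fun x => -cosh (dist y x) := by
      funext x
      rw [cosh_dist, neg_neg]
    rw [this]
    have hc : Continuous fun x : X m => -cosh (dist y x) := by fun_prop
    have := hc.tendsto y
    simpa using this
  unfold ContinuousAt
  rw [tendsto_pi_nhds]
  intro i
  refine Fin.cases ?_ (fun j => ?_) i
  · exact h0.tendsto y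
  · have h6 := (hz j).sub (hB.mul_const (y.1 j.succ))
    have h7 : (fun x : X m => x.1 j.succ + B y.1 x.1 * y.1 j.succ - B y.1 x.1 * y.1 j.succ) =
        fun x => x.1 j.succ := by
      funext x
      ring
    rw [h7] at h6
    have h8 : (0 : ℝ) - -1 * y.1 j.succ = y.1 j.succ := by ring
    rw [h8] at h6
    exact h6

instance : ContinuousSMul (GG m) (X m) := ⟨by
  apply continuous_of_val
  exact continuous_act continuous_fst (continuous_val.comp continuous_snd)⟩

/-- The facts about the action needed for the smoothing. -/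
theorem actFacts (k : ℕ) : Pool.Agent.Helper17.BR.ActFacts (GG (k + 2)) (X (k + 2)) oo where
  cont := continuous_id.smul continuous_const
  trans := exists_smul_oo
  proper := isCompact_disp

end Pool.Agent.Helper24.BR
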