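import Pool.Agent.Helper24.BR.LorR
import Pool.Agent.Helper17.BR.Cone

/-!
# Project BR: joint continuity of the radial maps; the structure `Rad` of the descent
-/

open Matrix Real

namespace Pool.Agent.Helper24.BR

variable {m : ℕ}

theorem rad_cl (p : X m) (r : ℝ) (z : X m) : rad p (cl p r z) z = rad p r z := by
  have h : cl p (cl p r z) z = cl p r z := by
    unfold cl
    rw [max_eq_left (le_min (le_max_right _ _) dist_nonneg), min_assoc, min_self]
  apply Subtype.ext
  show radV p (cl p r z) z = radV p r z
  unfold radV cq
  rw [h]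

/-- The radial point seen from the other end. -/
theorem rad_eq_rev (p : X m) {r : ℝ} (hr : 0 ≤ r) (z : X m) :
    rad p r z = rad z (max (dist p z - r) 0) p := by
  have h1 : dist p z - cl p r z = max (dist p z - r) 0 := by
    unfold cl
    rw [max_eq_left hr]
    rcases le_total r (dist p z) with h | h
    · rw [min_eq_left h, max_eq_left (by linarith)]
    · rw [min_eq_right h, max_eq_right (by linarith), sub_self]
  rw [← h1, rad_rev p z (cl_nonneg p r z) (cl_le p r z), rad_cl]

/-- The radial map is Lipschitz in the centre. -/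
theorem dist_rad_center (p p' : X m) (r : ℝ) (z : X m) :
    dist (rad p r z) (rad p' r z) ≤ 2 * dist p p' := by
  rcases le_total r 0 with h | h
  · rw [rad_nonpos p z h, rad_nonpos p' z h]
    have : 0 ≤ dist p p' := dist_nonneg
    linarith
  · rw [rad_eq_rev p h z, rad_eq_rev p' h z]
    have h1 := dist_triangle (rad z (max (dist p z - r) 0) p) (rad z (max (dist p z - r) 0) p')
      (rad z (max (dist p' z - r) 0) p')
    have h2 := dist_rad_le z p p' (max (dist p z - r) 0)
    have h3 := dist_rad_rad_le z p' (max (dist p z - r) 0) (max (dist p' z - r) 0)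
    have h4 : |max (dist p z - r) 0 - max (dist p' z - r) 0| ≤ dist p p' := by
      refine (abs_max_sub_max_le_max _ _ _ _).trans ?_
      rw [sub_self, abs_zero, max_eq_left (abs_nonneg _)]
      rw [show dist p z - r - (dist p' z - r) = dist p z - dist p' z by ring]
      exact abs_dist_sub_le p p' z
    linarith

theorem dist_rad_total (p p' z z' : X m) (r r' : ℝ) :
    dist (rad p r z) (rad p' r' z') ≤ 2 * dist p p' + |r - r'| + dist z z' := by
  have h1 := dist_triangle (rad p r z) (rad p' r z) (rad p' r' z')
  have h2 := dist_triangle (rad p' r z) (rad p' r' z) (rad p' r' z')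
  have h3 := dist_rad_center p p' r z
  have h4 := dist_rad_rad_le p' z r r'
  have h5 := dist_rad_le p' z z' r'
  linarith

theorem continuous_rad : Continuous fun q : X m × ℝ × X m => rad q.1 q.2.1 q.2.2 := by
  rw [continuous_iff_continuousAt]
  intro q
  unfold ContinuousAt
  rw [tendsto_iff_dist_tendsto_zero]
  have h0 : Filter.Tendsto (fun x : X m × ℝ × X m => 2 * dist x.1 q.1 + |x.2.1 - q.2.1| +
      dist x.2.2 q.2.2) (nhds q) (nhds 0) := by
    have hc : Continuous (fun x : X m × ℝ × X m => 2 * dist x.1 q.1 + |x.2.1 - q.2.1| +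
      dist x.2.2 q.2.2) := by fun_prop
    have := hc.tendsto q
    simpa using this
  exact squeeze_zero (fun _ => dist_nonneg)
    (fun x => dist_rad_total x.1 q.1 x.2.2 q.2.2 x.2.1 q.2.1) h0

/-- The structure of the descent. -/
noncomputable def radI (m : ℕ) : Pool.Agent.Helper17.BR.Rad (GG m) (X m) where
  Psi p j z := rad p j z
  inv g p j z := smul_rad g p j z
  zero p z := by
    rw [Nat.cast_zero]
    exact rad_zero p z
  far p z j h := rad_far p z h
  step p j z := by
    refine (dist_rad_rad_le p z _ _).trans ?_
    push_cast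
    rw [show (j : ℝ) - (j + 1) = -1 by ring, abs_neg, abs_one]
  contr p j z z' := dist_rad_le p z z' j
  decay R := ⟨exp R * exp R, fun p z z' j h => dist_rad_decay R p z z' j h⟩
  cont j := by
    have h : Continuous fun q : X m × X m => ((q.1, (j : ℝ), q.2) : X m × ℝ × X m) := by fun_prop
    exact continuous_rad.comp h

end Pool.Agent.Helper24.BR
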